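import Mathlib

set_option autoImplicit false

namespace Pool.Agent.K4H60.Seven

/-- an (abstract) convex symmetric plane set, used through coordinates -/
structure Ball (K : ℝ → ℝ → Prop) : Prop where
  symm : ∀ x y, K x y → K (-x) (-y)
  conv : ∀ x y x' y' α β : ℝ, K x y → K x' y' → 0 ≤ α → 0 ≤ β → α + β ≤ 1 →
    K (α * x + β * x') (α * y + β * y')

namespace Ball

variable {K : ℝ → ℝ → Prop}

lemma cone (hK : Ball K) {px py qx qy x y : ℝ} (hP : K px py) (hQ : K qx qy)
    (hD : 0 < px * qy - py * qx) (h1 : 0 ≤ x * qy - y * qx) (h2 : 0 ≤ px * y - py * x)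
    (hn : ¬ K (2 * x) (2 * y)) :
    px * qy - py * qx < 2 * ((x * qy - y * qx) + (px * y - py * x)) := by
  by_contra hcon
  push Not at hcon
  apply hn
  have hD' : px * qy - py * qx ≠ 0 := hD.ne'
  have := hK.conv px py qx qy (2 * (x * qy - y * qx) / (px * qy - py * qx))
    (2 * (px * y - py * x) / (px * qy - py * qx)) hP hQ (by positivity) (by positivity)
    (by rw [← add_div, div_le_one hD]; linarith)
  have e1 : 2 * (x * qy - y * qx) / (px * qy - py * qx) * px
      + 2 * (px * y - py * x) / (px * qy - py * qx) * qx = 2 * x := by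
    rw [div_mul_eq_mul_div, div_mul_eq_mul_div, ← add_div, div_eq_iff hD']; ring
  have e2 : 2 * (x * qy - y * qx) / (px * qy - py * qx) * py
      + 2 * (px * y - py * x) / (px * qy - py * qx) * qy = 2 * y := by
    rw [div_mul_eq_mul_div, div_mul_eq_mul_div, ← add_div, div_eq_iff hD']; ring
  rw [e1, e2] at this; exact this

lemma reflX (hK : Ball K) : Ball (fun x y => K (-x) y) where
  symm := fun x y h => by simpa using hK.symm _ _ h
  conv := fun x y x' y' α β h h' hα hβ hs => by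
    have := hK.conv (-x) y (-x') y' α β h h' hα hβ hs
    have e : -(α * x + β * x') = α * -x + β * -x' := by ring
    show K (-(α * x + β * x')) _
    rw [e]; exact this

lemma reflY (hK : Ball K) : Ball (fun x y => K x (-y)) where
  symm := fun x y h => by simpa using hK.symm _ _ h
  conv := fun x y x' y' α β h h' hα hβ hs => by
    have := hK.conv x (-y) x' (-y') α β h h' hα hβ hs
    have e : -(α * y + β * y') = α * -y + β * -y' := by ring
    show K _ (-(α * y + β * y'))
    rw [e]; exact this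

lemma swap (hK : Ball K) : Ball (fun x y => K y x) where
  symm := fun x y h => hK.symm _ _ h
  conv := fun x y x' y' α β h h' hα hβ hs => hK.conv y x y' x' α β h h' hα hβ hs

/-- down-closedness in the first quadrant -/
lemma box (hK : Ball K) (k10 : K 1 0) (k01 : K 0 1) {X Y x y : ℝ} (h : K X Y) (hX : X ≤ 1)
    (hY : Y ≤ 1) (x0 : 0 ≤ x) (y0 : 0 ≤ y) (hx : x ≤ X) (hy : y ≤ Y) : K x y := by
  have hX0 : 0 ≤ X := x0.trans hx
  have hY0 : 0 ≤ Y := y0.trans hy
  -- `K x Y`
  have k1 : K x Y := by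
    rcases hX0.eq_or_lt with h0 | h0
    · have : x = X := by linarith
      rw [this]; exact h
    · have hY' : K 0 Y := by
        have := hK.conv 0 1 0 1 Y 0 k01 k01 hY0 le_rfl (by linarith)
        simpa using this
      have := hK.conv X Y 0 Y (x / X) (1 - x / X) h hY' (by positivity)
        (by rw [sub_nonneg]; exact (div_le_one h0).2 hx) (by linarith)
      have e1 : x / X * X + (1 - x / X) * 0 = x := by field_simp; ring
      have e2 : x / X * Y + (1 - x / X) * Y = Y := by ring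
      rw [e1, e2] at this; exact this
  have k2 : K x 0 := by
    have := hK.conv 1 0 1 0 x 0 k10 k10 x0 le_rfl (by linarith)
    simpa using this
  rcases hY0.eq_or_lt with h0 | h0
  · have : y = Y := by linarith
    rw [this]; exact k1
  · have := hK.conv x Y x 0 (y / Y) (1 - y / Y) k1 k2 (by positivity)
      (by rw [sub_nonneg]; exact (div_le_one h0).2 hy) (by linarith)
    have e1 : y / Y * x + (1 - y / Y) * x = x := by ring
    have e2 : y / Y * Y + (1 - y / Y) * 0 = y := by field_simp; ring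
    rw [e1, e2] at this; exact this

/-- `ℓ¹` estimate -/
lemma l1 (hK : Ball K) (k10 : K 1 0) (k01 : K 0 1) {x y : ℝ} (x0 : 0 ≤ x) (y0 : 0 ≤ y)
    (hn : ¬ K (2 * x) (2 * y)) : 1 < 2 * (x + y) := by
  have := hK.cone k10 k01 (x := x) (y := y) (by norm_num) (by linarith) (by linarith) hn
  linarith

/-- two cones -/
lemma two (hK : Ball K) (k10 : K 1 0) (k01 : K 0 1) {p q x y : ℝ} (hp : 0 < p) (hq : 0 < q)
    (h : K p q) (x0 : 0 ≤ x) (y0 : 0 ≤ y) (hn : ¬ K (2 * x) (2 * y)) :
    (q < 2 * (q * x + (1 - p) * y) ∧ 0 ≤ x * q - y * p) ∨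
    (p < 2 * ((1 - q) * x + p * y) ∧ 0 ≤ p * y - q * x) := by
  rcases le_total 0 (x * q - y * p) with hc | hc
  · left
    have := hK.cone k10 h (x := x) (y := y) (by linarith) hc (by linarith) hn
    exact ⟨by linarith, hc⟩
  · right
    have := hK.cone h k01 (x := x) (y := y) (by linarith) (by linarith) (by linarith) hn
    exact ⟨by linarith, by linarith⟩

/-- three cones -/
lemma three (hK : Ball K) (k10 : K 1 0) (k01 : K 0 1) {p q p' q' x y : ℝ} (hp' : 0 < p')
    (hq : 0 < q) (hD : 0 < p * q' - q * p') (h : K p q) (h' : K p' q') (x0 : 0 ≤ x) (y0 : 0 ≤ y)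
    (hn : ¬ K (2 * x) (2 * y)) :
    (q < 2 * (x * q + (1 - p) * y) ∧ 0 ≤ x * q - y * p) ∨
    (p * q' - q * p' < 2 * ((q' - q) * x + (p - p') * y) ∧ 0 ≤ x * q' - y * p') ∨
    (p' < 2 * ((1 - q') * x + p' * y) ∧ 0 ≤ p' * y - q' * x) := by
  rcases le_total 0 (x * q - y * p) with hc | hc
  · left
    have := hK.cone k10 h (x := x) (y := y) (by linarith) hc (by linarith) hn
    exact ⟨by linarith, hc⟩
  · right
    rcases le_total 0 (x * q' - y * p') with hc' | hc'
    · left
      have := hK.cone h h' (x := x) (y := y) hD hc' (by linarith) hn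
      exact ⟨by linarith, hc'⟩
    · right
      have := hK.cone h' k01 (x := x) (y := y) (by linarith) (by linarith) (by linarith) hn
      exact ⟨by linarith, by linarith⟩

/-- side `α` -/
lemma chA (hK : Ball K) (k10 : K 1 0) (k01 : K 0 1) {t s c d x y : ℝ} (ht : 0 < t) (hs : 0 ≤ s)
    (hc : 0 < c) (hd : 0 < d) (h : K (c + t) d) (h' : K c (d + s)) (x0 : 0 ≤ x) (y0 : 0 ≤ y)
    (hn : ¬ K (2 * x) (2 * y)) :
    (d < 2 * (x * d + (1 - t - c) * y) ∧ 0 ≤ x * d - y * (c + t)) ∨
    (c * s + t * d + t * s < 2 * (s * x + t * y)) ∨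
    (c < 2 * (c * y + (1 - s - d) * x)) := by
  have hD : 0 < (c + t) * (d + s) - d * c := by
    have := mul_pos ht hd
    have := mul_nonneg hc.le hs
    have := mul_nonneg ht.le hs
    nlinarith
  rcases hK.three k10 k01 hc hd hD h h' x0 y0 hn with ⟨h1, h2⟩ | ⟨h1, h2⟩ | ⟨h1, h2⟩
  · left; exact ⟨by linarith, h2⟩
  · right; left; nlinarith
  · right; right; linarith

/-- side `β` -/
lemma chB (hK : Ball K) (k10 : K 1 0) (k01 : K 0 1) {t s c d x y : ℝ} (ht : 0 < t) (hs : 0 ≤ s)
    (hs1 : s < 1)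
    (hc : 0 < c) (hd : 0 < d) (hd2 : d ≤ 1 - s) (h : K (c + t) d) (h' : K t (1 - s))
    (x0 : 0 ≤ x) (y0 : 0 ≤ y) (hn : ¬ K (2 * x) (2 * y)) :
    (d < 2 * (x * d + (1 - t - c) * y) ∧ 0 ≤ x * d - y * (c + t)) ∨
    (c * (1 - s) + t * (1 - s - d) < 2 * ((1 - s - d) * x + c * y) ∧ 0 ≤ x * (1 - s) - y * t) ∨
    (t < 2 * (s * x + t * y) ∧ 0 ≤ t * y - (1 - s) * x) := by
  have hD : 0 < (c + t) * (1 - s) - d * t := by
    have := mul_pos hc (show (0:ℝ) < 1 - s by linarith)
    have := mul_nonneg ht.le (show (0:ℝ) ≤ 1 - s - d by linarith)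
    nlinarith
  rcases hK.three k10 k01 ht hd hD h h' x0 y0 hn with ⟨h1, h2⟩ | ⟨h1, h2⟩ | ⟨h1, h2⟩
  · left; exact ⟨by linarith, h2⟩
  · right; left; exact ⟨by nlinarith, h2⟩
  · right; right; exact ⟨by linarith, h2⟩

end Ball

end Pool.Agent.K4H60.Seven
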