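import Pool.Agent.K4H60.Seven.Core

set_option autoImplicit false

namespace Pool.Agent.K4H60.Seven

/-- normalised configuration: `L`, `R` on the first axis, `B`, `T` on the second axis, all points
in the box -/
structure Cfg {ι : Type} (K : ℝ → ℝ → Prop) (X Y : ι → ℝ) (L R B T : ι) (t s : ℝ) : Prop where
  ball : Ball K
  mem : ∀ i j, K (X i - X j) (Y i - Y j)
  nmem : ∀ i j, i ≠ j → ¬ K (2 * (X i - X j)) (2 * (Y i - Y j))
  hL : X L = -t
  hL' : Y L = 0
  hR : X R = 1 - t
  hR' : Y R = 0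
  hB : X B = 0
  hB' : Y B = -s
  hT : X T = 0
  hT' : Y T = 1 - s
  bx : ∀ i, -t ≤ X i ∧ X i ≤ 1 - t
  by' : ∀ i, -s ≤ Y i ∧ Y i ≤ 1 - s

/-- not one of the four base points -/
def Ex {ι : Type} (L R B T i : ι) : Prop := i ≠ L ∧ i ≠ R ∧ i ≠ B ∧ i ≠ T

namespace Cfg

variable {ι : Type} {K : ℝ → ℝ → Prop} {X Y : ι → ℝ} {L R B T : ι} {t s : ℝ}

lemma reflX (C : Cfg K X Y L R B T t s) :
    Cfg (fun x y => K (-x) y) (fun i => -X i) Y R L B T (1 - t) s where
  ball := C.ball.reflX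
  mem := fun i j => by
    have e : -(-X i - -X j) = X i - X j := by ring
    show K (-(-X i - -X j)) _
    rw [e]; exact C.mem i j
  nmem := fun i j h => by
    have e : -(2 * (-X i - -X j)) = 2 * (X i - X j) := by ring
    show ¬ K (-(2 * (-X i - -X j))) _
    rw [e]; exact C.nmem i j h
  hL := by rw [C.hR]
  hL' := C.hR'
  hR := by rw [C.hL]; ring
  hR' := C.hL'
  hB := by rw [C.hB]; ring
  hB' := C.hB'
  hT := by rw [C.hT]; ring
  hT' := C.hT'
  bx := fun i => ⟨by have := (C.bx i).2; linarith, by have := (C.bx i).1; linarith⟩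
  by' := C.by'

lemma swap (C : Cfg K X Y L R B T t s) :
    Cfg (fun x y => K y x) Y X B T L R s t where
  ball := C.ball.swap
  mem := fun i j => C.mem i j
  nmem := fun i j h => C.nmem i j h
  hL := C.hB'
  hL' := C.hB
  hR := C.hT'
  hR' := C.hT
  hB := C.hL'
  hB' := C.hL
  hT := C.hR'
  hT' := C.hR
  bx := C.by'
  by' := C.bx

lemma reflY (C : Cfg K X Y L R B T t s) :
    Cfg (fun x y => K x (-y)) X (fun i => -Y i) L R T B t (1 - s) :=
  C.swap.reflX.swap

lemma k10 (C : Cfg K X Y L R B T t s) : K 1 0 := by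
  have := C.mem R L
  rw [C.hR, C.hL, C.hR', C.hL'] at this
  have e1 : 1 - t - -t = 1 := by ring
  have e2 : (0:ℝ) - 0 = 0 := by ring
  rwa [e1, e2] at this

lemma k01 (C : Cfg K X Y L R B T t s) : K 0 1 := C.swap.k10

lemma s0 (C : Cfg K X Y L R B T t s) : 0 ≤ s := by
  have := (C.by' L).1
  rw [C.hL'] at this; linarith

/-- an extra point in the closed NE quadrant forces `s + t < 1` -/
lemma ne_sum (C : Cfg K X Y L R B T t s) {i : ι} (hi : Ex L R B T i) (hx : 0 ≤ X i)
    (hy : 0 ≤ Y i) : s + t < 1 := by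
  obtain ⟨hiL, hiR, hiB, hiT⟩ := hi
  have k10 := C.reflX.k10
  have k01 := C.reflX.k01
  have h1 := C.nmem T i hiT.symm
  rw [C.hT, C.hT'] at h1
  have h2 := C.nmem i R hiR
  rw [C.hR, C.hR'] at h2
  have l1 := C.ball.reflX.l1 k10 k01 (x := X i) (y := 1 - s - Y i) hx
    (by have := (C.by' i).2; linarith) (by
      intro h; apply h1
      have e : 2 * (0 - X i) = -(2 * X i) := by ring
      rw [e]; exact h)
  have l2 := C.ball.reflX.l1 k10 k01 (x := 1 - t - X i) (y := Y i)
    (by have := (C.bx i).2; linarith) hy (by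
      intro h; apply h2
      have e : 2 * (X i - (1 - t)) = -(2 * (1 - t - X i)) := by ring
      have e2 : 2 * (Y i - 0) = 2 * Y i := by ring
      rw [e, e2]; exact h)
  linarith

/-- the box `[0, 1 - t] × [0, 1 - s]` of the reflected ball -/
lemma box' (C : Cfg K X Y L R B T t s) {x y : ℝ} (x0 : 0 ≤ x) (y0 : 0 ≤ y) (hx : x ≤ 1 - t)
    (hy : y ≤ 1 - s) : K (-x) y := by
  have h := C.mem T R
  rw [C.hT, C.hT', C.hR, C.hR'] at h
  have h' : K (-(1 - t)) (1 - s) := by
    have e : 0 - (1 - t) = -(1 - t) := by ring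
    have e2 : 1 - s - 0 = 1 - s := by ring
    rwa [e, e2] at h
  have ht : 0 ≤ t := by
    have := (C.bx B).1
    rw [C.hB] at this; linarith
  exact C.ball.reflX.box C.reflX.k10 C.reflX.k01 (X := 1 - t) (Y := 1 - s) h' (by linarith)
    (by linarith [C.s0]) x0 y0 hx hy

/-- inner or outer -/
lemma inout (C : Cfg K X Y L R B T t s) {i : ι} (hi : Ex L R B T i) (hx : 0 ≤ X i)
    (hy : 0 ≤ Y i) :
    (2 * X i < 1 - t ∧ 2 * Y i < 1 - s) ∨ (1 - t < 2 * X i ∧ 1 - s < 2 * Y i) := by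
  obtain ⟨hiL, hiR, hiB, hiT⟩ := hi
  have h1 := C.nmem T i hiT.symm
  rw [C.hT, C.hT'] at h1
  have h2 := C.nmem i R hiR
  rw [C.hR, C.hR'] at h2
  have b1 := (C.bx i).2
  have b2 := (C.by' i).2
  have k1 : 2 * X i ≤ 1 - t → 2 * (1 - s - Y i) ≤ 1 - s → False := by
    intro q1 q2
    apply h1
    have := C.box' (x := 2 * X i) (y := 2 * (1 - s - Y i)) (by linarith) (by linarith) q1 q2
    have e : 2 * (0 - X i) = -(2 * X i) := by ring
    rw [e]; exact this
  have k2 : 2 * (1 - t - X i) ≤ 1 - t → 2 * Y i ≤ 1 - s → False := by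
    intro q1 q2
    apply h2
    have := C.box' (x := 2 * (1 - t - X i)) (y := 2 * Y i) (by linarith) (by linarith) q1 q2
    have e : 2 * (X i - (1 - t)) = -(2 * (1 - t - X i)) := by ring
    have e2 : 2 * (Y i - 0) = 2 * Y i := by ring
    rw [e, e2]; exact this
  rcases lt_or_ge (2 * X i) (1 - t) with h | h
  · left
    refine ⟨h, ?_⟩
    by_contra hc
    push Not at hc
    exact k1 h.le (by linarith)
  · right
    have hy' : 1 - s < 2 * Y i := by
      by_contra hc
      push Not at hc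
      exact k2 (by linarith) hc
    refine ⟨?_, hy'⟩
    rcases h.eq_or_lt with h' | h'
    · exfalso
      exact k1 h'.ge (by linarith)
    · exact h'

/-- at most one inner point -/
lemma inner_inner (C : Cfg K X Y L R B T t s) {i j : ι} (hij : i ≠ j) (hi : Ex L R B T i)
    (hj : Ex L R B T j) (hx : 0 ≤ X i) (hy : 0 ≤ Y i) (hx' : 0 ≤ X j) (hy' : 0 ≤ Y j)
    (ii : 2 * X i < 1 - t ∧ 2 * Y i < 1 - s) (jj : 2 * X j < 1 - t ∧ 2 * Y j < 1 - s) :
    False := by
  wlog hx2 : X i ≤ X j generalizing i j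
  · exact this hij.symm hj hi hx' hy' hx hy jj ii (le_of_not_ge hx2)
  obtain ⟨hiL, hiR, hiB, hiT⟩ := hi
  have n := C.nmem j i hij.symm
  rcases le_total (Y i) (Y j) with hy2 | hy2
  · have l1 := C.ball.l1 C.k10 C.k01 (x := X j - X i) (y := Y j - Y i) (by linarith) (by linarith) n
    have nL := C.nmem i L hiL
    rw [C.hL, C.hL'] at nL
    have nB := C.nmem i B hiB
    rw [C.hB, C.hB'] at nB
    have t0 := (C.bx i).1
    have s0 := (C.by' i).1
    have l2 := C.ball.l1 C.k10 C.k01 (x := X i - -t) (y := Y i - 0) (by linarith) (by linarith) nL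
    have l3 := C.ball.l1 C.k10 C.k01 (x := X i - 0) (y := Y i - -s) (by linarith) (by linarith) nB
    linarith [ii.1, ii.2, jj.1, jj.2]
  · apply n
    have := C.box' (x := 2 * (X j - X i)) (y := 2 * (Y i - Y j)) (by linarith) (by linarith)
      (by linarith [jj.1]) (by linarith [ii.2])
    have h2 := C.ball.symm _ _ this
    have e1 : -(-(2 * (X j - X i))) = 2 * (X j - X i) := by ring
    have e2 : -(2 * (Y i - Y j)) = 2 * (Y j - Y i) := by ring
    rw [e1, e2] at h2; exact h2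

/-- at most one outer point -/
lemma outer_outer (C : Cfg K X Y L R B T t s) {i j : ι} (hij : i ≠ j)
    (hx : 0 ≤ X i) (hy : 0 ≤ Y i) (hx' : 0 ≤ X j) (hy' : 0 ≤ Y j)
    (ii : 1 - t < 2 * X i ∧ 1 - s < 2 * Y i) (jj : 1 - t < 2 * X j ∧ 1 - s < 2 * Y j) :
    False := by
  wlog hx2 : X i ≤ X j generalizing i j
  · exact this hij.symm hx' hy' hx hy jj ii (le_of_not_ge hx2)
  have n := C.nmem j i hij.symm
  have bxj := (C.bx j).2
  have byj := (C.by' j).2
  have byi := (C.by' i).2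
  have ht : 0 ≤ t := by
    have := (C.bx B).1
    rw [C.hB] at this; linarith
  have hs := C.s0
  rcases le_total (Y i) (Y j) with hy2 | hy2
  · apply n
    have h := C.mem j L
    rw [C.hL, C.hL'] at h
    exact C.ball.box C.k10 C.k01 h (by linarith) (by linarith) (by linarith) (by linarith)
      (by linarith [ii.1]) (by linarith [ii.2])
  · apply n
    have := C.box' (x := 2 * (X j - X i)) (y := 2 * (Y i - Y j)) (by linarith) (by linarith)
      (by linarith [ii.1]) (by linarith [jj.2])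
    have h2 := C.ball.symm _ _ this
    have e1 : -(-(2 * (X j - X i))) = 2 * (X j - X i) := by ring
    have e2 : -(2 * (Y i - Y j)) = 2 * (Y j - Y i) := by ring
    rw [e1, e2] at h2; exact h2

/-- at most two extra points in a closed quadrant -/
lemma no3 (C : Cfg K X Y L R B T t s) {i j k : ι} (hij : i ≠ j) (hik : i ≠ k) (hjk : j ≠ k)
    (hi : Ex L R B T i) (hj : Ex L R B T j) (hk : Ex L R B T k)
    (xi : 0 ≤ X i) (yi : 0 ≤ Y i) (xj : 0 ≤ X j) (yj : 0 ≤ Y j) (xk : 0 ≤ X k) (yk : 0 ≤ Y k) :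
    False := by
  rcases C.inout hi xi yi with h1 | h1 <;> rcases C.inout hj xj yj with h2 | h2 <;>
    rcases C.inout hk xk yk with h3 | h3
  · exact C.inner_inner hij hi hj xi yi xj yj h1 h2
  · exact C.inner_inner hij hi hj xi yi xj yj h1 h2
  · exact C.inner_inner hik hi hk xi yi xk yk h1 h3
  · exact C.outer_outer hjk xj yj xk yk h2 h3
  · exact C.inner_inner hjk hj hk xj yj xk yk h2 h3
  · exact C.outer_outer hik xi yi xk yk h1 h3
  · exact C.outer_outer hij xi yi xj yj h1 h2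
  · exact C.outer_outer hij xi yi xj yj h1 h2

/-- the main case: inner `i`, outer `j` in NE, `k` in NW -/
lemma main (C : Cfg K X Y L R B T t s) {i j k : ι} (hij : i ≠ j) (hik : i ≠ k)
    (hi : Ex L R B T i) (hj : Ex L R B T j) (hk : Ex L R B T k)
    (xi : 0 ≤ X i) (yi : 0 ≤ Y i) (xj : 0 ≤ X j) (yj : 0 ≤ Y j) (xk : X k < 0) (yk : 0 ≤ Y k)
    (ii : 2 * X i < 1 - t ∧ 2 * Y i < 1 - s) (jj : 1 - t < 2 * X j ∧ 1 - s < 2 * Y j) :
    False := by
  have hst1 := C.ne_sum hi xi yi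
  have hkX : Ex R L B T k := ⟨hk.2.1, hk.1, hk.2.2⟩
  have xk' : 0 ≤ -X k := by linarith
  have hst := C.reflX.ne_sum hkX xk' yk
  have hst' : s < t := by linarith
  have hkio := C.reflX.inout hkX xk' yk
  have hs := C.s0
  have hLB : L ≠ B := by
    intro h
    have h1 := C.hL
    rw [h, C.hB] at h1
    linarith
  have bxk := (C.bx k).1
  have byk := (C.by' k).2
  have bxj := (C.bx j).2
  have byj := (C.by' j).2
  have P : Pos K t s (X i) (Y i) (X j) (Y j) (-X k) (Y k) := by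
    constructor
    · exact C.ball
    · exact C.k10
    · exact C.k01
    · have := C.mem T R
      rw [C.hT, C.hT', C.hR, C.hR'] at this
      convert this using 1 <;> ring
    · have := C.mem j L
      rw [C.hL, C.hL'] at this
      convert this using 1 <;> ring
    · have := C.mem j B
      rw [C.hB, C.hB'] at this
      convert this using 1 <;> ring
    · have := C.mem T L
      rw [C.hT, C.hT', C.hL, C.hL'] at this
      convert this using 1 <;> ring
    · have := C.mem k R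
      rw [C.hR, C.hR'] at this
      convert this using 1 <;> ring
    · have := C.mem k B
      rw [C.hB, C.hB'] at this
      convert this using 1 <;> ring
    · have := C.nmem L B hLB
      rw [C.hB, C.hB', C.hL, C.hL'] at this
      convert this using 2 <;> ring
    · have := C.nmem i R hi.2.1
      rw [C.hR, C.hR'] at this
      convert this using 2 <;> ring
    · have := C.nmem i B hi.2.2.1
      rw [C.hB, C.hB'] at this
      convert this using 2 <;> ring
    · exact C.nmem j i hij.symm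
    · have := C.nmem k L hk.1
      rw [C.hL, C.hL'] at this
      convert this using 2 <;> ring
    · have := C.nmem T k hk.2.2.2.symm
      rw [C.hT, C.hT'] at this
      convert this using 2 ; ring
    · have := C.nmem i k hik
      convert this using 2 ; ring
    · have := C.nmem j R hj.2.1
      rw [C.hR, C.hR'] at this
      convert this using 2 <;> ring
    · have := C.nmem T j hj.2.2.2.symm
      rw [C.hT, C.hT'] at this
      convert this using 2 ; ring
  have hw : HW t s (X j) (Y j) := ⟨hs, hst', hst1, jj.1, bxj, jj.2, byj⟩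
  have hz : HZ t s (X i) (Y i) := ⟨xi, ii.1, yi, ii.2⟩
  rcases hkio with h | h
  · exact core1 P hw hz ⟨by linarith, by linarith [h.1], yk, h.2⟩
  · exact core0 P hw hz ⟨by linarith [h.1], by linarith, h.2, byk⟩

/-- two extra points in closed NE, one in closed NW -/
lemma adj (C : Cfg K X Y L R B T t s) {i j k : ι} (hij : i ≠ j) (hik : i ≠ k) (hjk : j ≠ k)
    (hi : Ex L R B T i) (hj : Ex L R B T j) (hk : Ex L R B T k)
    (xi : 0 ≤ X i) (yi : 0 ≤ Y i) (xj : 0 ≤ X j) (yj : 0 ≤ Y j) (xk : X k ≤ 0) (yk : 0 ≤ Y k) :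
    False := by
  rcases xk.eq_or_lt with h0 | h0
  · exact C.no3 hij hik hjk hi hj hk xi yi xj yj h0.ge yk
  rcases C.inout hi xi yi with h1 | h1 <;> rcases C.inout hj xj yj with h2 | h2
  · exact C.inner_inner hij hi hj xi yi xj yj h1 h2
  · exact C.main hij hik hi hj hk xi yi xj yj h0 yk h1 h2
  · exact C.main hij.symm hjk hj hi hk xj yj xi yi h0 yk h2 h1
  · exact C.outer_outer hij xi yi xj yj h1 h2

/-- opposite quadrants -/
lemma opp (C : Cfg K X Y L R B T t s) {i k : ι} (hi : Ex L R B T i) (hk : Ex L R B T k)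
    (xi : 0 ≤ X i) (yi : 0 ≤ Y i) (xk : X k ≤ 0) (yk : Y k ≤ 0) : False := by
  have h1 := C.ne_sum hi xi yi
  have h2 := C.reflX.reflY.ne_sum (i := k) ⟨hk.2.1, hk.1, hk.2.2.2, hk.2.2.1⟩
    (by linarith) (by linarith)
  linarith

/-- two extra points in closed NE, one anywhere -/
lemma twoNE (C : Cfg K X Y L R B T t s) {i j k : ι} (hij : i ≠ j) (hik : i ≠ k) (hjk : j ≠ k)
    (hi : Ex L R B T i) (hj : Ex L R B T j) (hk : Ex L R B T k)
    (xi : 0 ≤ X i) (yi : 0 ≤ Y i) (xj : 0 ≤ X j) (yj : 0 ≤ Y j) : False := by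
  rcases le_total 0 (X k) with xk | xk <;> rcases le_total 0 (Y k) with yk | yk
  · exact C.no3 hij hik hjk hi hj hk xi yi xj yj xk yk
  · exact C.swap.adj hij hik hjk ⟨hi.2.2.1, hi.2.2.2, hi.1, hi.2.1⟩
      ⟨hj.2.2.1, hj.2.2.2, hj.1, hj.2.1⟩ ⟨hk.2.2.1, hk.2.2.2, hk.1, hk.2.1⟩ yi xi yj xj yk xk
  · exact C.adj hij hik hjk hi hj hk xi yi xj yj xk yk
  · exact C.opp hi hk xi yi xk yk

/-- two extra points with nonnegative first coordinate, in the same or in opposite quadrants -/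
lemma pair1 (C : Cfg K X Y L R B T t s) {i j k : ι} (hij : i ≠ j) (hik : i ≠ k) (hjk : j ≠ k)
    (hi : Ex L R B T i) (hj : Ex L R B T j) (hk : Ex L R B T k)
    (xi : 0 ≤ X i) (yi : 0 ≤ Y i)
    (h : (0 ≤ X j ∧ 0 ≤ Y j) ∨ (X j ≤ 0 ∧ Y j ≤ 0)) : False := by
  rcases h with h | h
  · exact C.twoNE hij hik hjk hi hj hk xi yi h.1 h.2
  · exact C.opp hi hj xi yi h.1 h.2

lemma pair (C : Cfg K X Y L R B T t s) {i j k : ι} (hij : i ≠ j) (hik : i ≠ k) (hjk : j ≠ k)
    (hi : Ex L R B T i) (hj : Ex L R B T j) (hk : Ex L R B T k)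
    (h : (0 ≤ X i ↔ 0 ≤ Y i) ↔ (0 ≤ X j ↔ 0 ≤ Y j)) : False := by
  have rx : ∀ {m : ι}, Ex L R B T m → Ex R L B T m := fun hm => ⟨hm.2.1, hm.1, hm.2.2⟩
  have ry : ∀ {m : ι}, Ex L R B T m → Ex L R T B m :=
    fun hm => ⟨hm.1, hm.2.1, hm.2.2.2, hm.2.2.1⟩
  have rxy : ∀ {m : ι}, Ex L R B T m → Ex R L T B m :=
    fun hm => ⟨hm.2.1, hm.1, hm.2.2.2, hm.2.2.1⟩
  by_cases xi : 0 ≤ X i <;> by_cases yi : 0 ≤ Y i <;> by_cases xj : 0 ≤ X j <;>
    by_cases yj : 0 ≤ Y j <;> simp only [xi, yi, xj, yj, iff_true, iff_false, iff_self,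
      not_true_eq_false, not_false_eq_true] at h
  · exact C.pair1 hij hik hjk hi hj hk xi yi (Or.inl ⟨xj, yj⟩)
  · exact C.pair1 hij hik hjk hi hj hk xi yi (Or.inr ⟨(not_le.1 xj).le, (not_le.1 yj).le⟩)
  · exact C.reflY.pair1 hij hik hjk (ry hi) (ry hj) (ry hk) xi (by linarith [not_le.1 yi])
      (Or.inl ⟨xj, by linarith [not_le.1 yj]⟩)
  · exact C.reflY.pair1 hij hik hjk (ry hi) (ry hj) (ry hk) xi (by linarith [not_le.1 yi])
      (Or.inr ⟨(not_le.1 xj).le, by linarith⟩)
  · exact C.reflX.pair1 hij hik hjk (rx hi) (rx hj) (rx hk) (by linarith [not_le.1 xi]) yi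
      (Or.inr ⟨by linarith, (not_le.1 yj).le⟩)
  · exact C.reflX.pair1 hij hik hjk (rx hi) (rx hj) (rx hk) (by linarith [not_le.1 xi]) yi
      (Or.inl ⟨by linarith [not_le.1 xj], yj⟩)
  · exact C.reflX.reflY.pair1 hij hik hjk (rxy hi) (rxy hj) (rxy hk) (by linarith [not_le.1 xi])
      (by linarith [not_le.1 yi]) (Or.inr ⟨by linarith, by linarith⟩)
  · exact C.reflX.reflY.pair1 hij hik hjk (rxy hi) (rxy hj) (rxy hk) (by linarith [not_le.1 xi])
      (by linarith [not_le.1 yi]) (Or.inl ⟨by linarith [not_le.1 xj], by linarith [not_le.1 yj]⟩)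

/-- no three extra points -/
theorem false3 (C : Cfg K X Y L R B T t s) {i j k : ι} (hij : i ≠ j) (hik : i ≠ k) (hjk : j ≠ k)
    (hi : Ex L R B T i) (hj : Ex L R B T j) (hk : Ex L R B T k) : False := by
  have h1 := fun h => C.pair hij hik hjk hi hj hk h
  have h2 := fun h => C.pair hik hij hjk.symm hi hk hj h
  have h3 := fun h => C.pair hjk hij.symm hik.symm hj hk hi h
  generalize (0 ≤ X i ↔ 0 ≤ Y i) = p at h1 h2 h3
  generalize (0 ≤ X j ↔ 0 ≤ Y j) = q at h1 h2 h3
  generalize (0 ≤ X k ↔ 0 ≤ Y k) = r at h1 h2 h3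
  tauto

end Cfg

end Pool.Agent.K4H60.Seven
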