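import Pool.Agent.K4H60.Seven.Poly4
import Pool.Agent.K4H60.Seven.Ball

set_option autoImplicit false

namespace Pool.Agent.K4H60.Seven

/-- the facts used in canonical position -/
structure Pos (K : ℝ → ℝ → Prop) (t s a b c d e f : ℝ) : Prop where
  ball : Ball K
  k10 : K 1 0
  k01 : K 0 1
  kTR : K (-(1 - t)) (1 - s)
  kWL : K (c + t) d
  kWB : K c (d + s)
  kTL : K t (1 - s)
  kVR : K (-(e + (1 - t))) f
  kVB : K (-e) (f + s)
  nLB : ¬ K (-(2 * t)) (2 * s)
  nZR : ¬ K (-(2 * (1 - t - a))) (2 * b)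
  nZB : ¬ K (2 * a) (2 * (b + s))
  nWZ : ¬ K (2 * (c - a)) (2 * (d - b))
  nVL : ¬ K (2 * (t - e)) (2 * f)
  nTV : ¬ K (2 * e) (2 * (1 - s - f))
  nZV : ¬ K (2 * (a + e)) (2 * (b - f))
  nWR : ¬ K (-(2 * (1 - t - c))) (2 * d)
  nTW : ¬ K (-(2 * c)) (2 * (1 - s - d))

variable {K : ℝ → ℝ → Prop} {t s a b c d e f : ℝ}

lemma Pos.LB (P : Pos K t s a b c d e f) (h : HW t s c d) : 1 - s < 2 * t := by
  obtain ⟨s0, st, st1, c1, c2, d1, d2⟩ := h
  have k10' : K (-1) 0 := by simpa using P.ball.symm _ _ P.k10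
  rcases P.ball.reflX.two (p := 1 - t) (q := 1 - s) (x := t) (y := s) k10'
    (by simpa using P.k01) (by linarith) (by linarith) P.kTR (by linarith) s0 P.nLB with h1 | h1
  · nlinarith [h1.1]
  · nlinarith [h1.2]

lemma Pos.Z2 (P : Pos K t s a b c d e f) (h : HW t s c d) (hz : HZ t s a b) :
    1 - s < 2 * ((1 - s) * (1 - t - a) + t * b) := by
  obtain ⟨s0, st, st1, c1, c2, d1, d2⟩ := h
  obtain ⟨a0, a1, b0, b1⟩ := hz
  have k10' : K (-1) 0 := by simpa using P.ball.symm _ _ P.k10
  rcases P.ball.reflX.two (p := 1 - t) (q := 1 - s) (x := 1 - t - a) (y := b) k10'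
    (by simpa using P.k01) (by linarith) (by linarith) P.kTR (by linarith) b0 P.nZR with h1 | h1
  · linarith [h1.1]
  · exfalso
    have := h1.2
    have h2 := mul_pos (show (0:ℝ) < 1 - t by linarith) (sub_pos.2 b1)
    have h3 := mul_pos (show (0:ℝ) < 1 - s by linarith) (sub_pos.2 a1)
    nlinarith

/-- positions of `v - z` against the five cones, mode 1 -/
lemma Pos.vz1 (P : Pos K t s a b c d e f) (h : HW t s c d) (hz : HZ t s a b) (hv : HV1 t s e f) :
    1 - s < 2 * ((1 - s) * (a + e) + t * (f - b)) ∨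
    1 - t < 2 * (s * (a + e) + (1 - t) * (f - b)) ∨
    (d < 2 * ((a + e) * d + (1 - t - c) * (b - f)) ∨
      (c * s + t * d + t * s < 2 * (s * (a + e) + t * (b - f))) ∨
      (c < 2 * (c * (b - f) + (1 - s - d) * (a + e)))) ∧
    (d < 2 * ((a + e) * d + (1 - t - c) * (b - f)) ∨
      (c * (1 - s) + t * (1 - s - d) < 2 * ((1 - s - d) * (a + e) + c * (b - f))) ∨
      (t < 2 * (s * (a + e) + t * (b - f)))) := by
  obtain ⟨s0, st, st1, c1, c2, d1, d2⟩ := h
  obtain ⟨e0, e1, f0, f1⟩ := hv
  obtain ⟨a0, a1, b0, b1⟩ := hz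
  have k10' : K (-1) 0 := by simpa using P.ball.symm _ _ P.k10
  rcases le_total b f with hbf | hbf
  · have hn : ¬ K (-(2 * (a + e))) (2 * (f - b)) := by
      intro hk
      apply P.nZV
      have := P.ball.symm _ _ hk
      have e1 : -(2 * (f - b)) = 2 * (b - f) := by ring
      rw [neg_neg, e1] at this; exact this
    rcases P.ball.reflX.two (p := 1 - t) (q := 1 - s) (x := a + e) (y := f - b) k10'
      (by simpa using P.k01) (by linarith) (by linarith) P.kTR (by linarith) (by linarith) hn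
      with h1 | h1
    · left; linarith [h1.1]
    · right; left; linarith [h1.1]
  · right; right
    constructor
    · rcases P.ball.chA P.k10 P.k01 (t := t) (s := s) (c := c) (d := d) (x := a + e) (y := b - f)
        (by linarith) s0 (by linarith) (by linarith) P.kWL P.kWB (by linarith) (by linarith)
        P.nZV with h1 | h1 | h1
      · left; exact h1.1
      · right; left; exact h1
      · right; right; exact h1
    · rcases P.ball.chB P.k10 P.k01 (t := t) (s := s) (c := c) (d := d) (x := a + e) (y := b - f)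
        (by linarith) s0 (by linarith) (by linarith) (by linarith) d2 P.kWL P.kTL (by linarith)
        (by linarith) P.nZV with h1 | h1 | h1
      · left; exact h1.1
      · right; left; exact h1.1
      · right; right; exact h1.1

lemma Pos.pi1 (P : Pos K t s a b c d e f) (h : HW t s c d) (hz : HZ t s a b) (hv : HV1 t s e f)
    (V0 : d < 2 * ((t - e) * d + (1 - t - c) * f)) : False := by
  have S := star (t := t) (s := s) (a := a) (b := b) (c := c) (d := d) (e := e) (f := f) h V0
    (P.Z2 h hz)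
  rcases P.vz1 h hz hv with h1 | h1 | ⟨h1, h2⟩
  · exact pi1_flat h hv S h1
  · exact pi1_steep h hz hv S h1
  · rcases le_or_gt (t * (1 - s - d)) (s * c) with hα | hβ
    · rcases h1 with h1 | h1 | h1
      · exact pi1_N0 h hz S h1
      · exact pi1_A2 h hz hv hα S h1
      · exact pi1_A1 h hz hv hα S h1
    · rcases h2 with h1 | h1 | h1
      · exact pi1_N0 h hz S h1
      · exact pi1_B1 h hz hv S h1
      · exact pi1_B2 h hz hv S h1

/-- side `β`: the position of `z` with respect to `B` and `w` -/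
lemma Pos.zB (P : Pos K t s a b c d e f) (h : HW t s c d) (hz : HZ t s a b)
    (hβ : s * c < t * (1 - s - d)) :
    d < 2 * ((c - a) * d + (1 - t - c) * (d - b)) ∧
    (c * (1 - s) + t * (1 - s - d) < 2 * ((1 - s - d) * a + c * (b + s)) ∨
      t < 2 * (s * a + t * (b + s))) := by
  have LB := P.LB h
  have h' := h
  have hz' := hz
  obtain ⟨s0, st, st1, c1, c2, d1, d2⟩ := h
  obtain ⟨a0, a1, b0, b1⟩ := hz
  have ht : (0:ℝ) < t := by linarith
  have hc : (0:ℝ) < c := by linarith
  have hac : a < c := by linarith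
  rcases P.ball.chB P.k10 P.k01 (t := t) (s := s) (c := c) (d := d) (x := a) (y := b + s)
    (by linarith) s0 (by linarith) (by linarith) (by linarith) d2 P.kWL P.kTL (by linarith)
    (by linarith) P.nZB with h1 | h1 | h1 <;>
  rcases P.ball.chB P.k10 P.k01 (t := t) (s := s) (c := c) (d := d) (x := c - a) (y := d - b)
    (by linarith) s0 (by linarith) (by linarith) (by linarith) d2 P.kWL P.kTL (by linarith)
    (by linarith) P.nWZ with h2 | h2 | h2
  · exact (z_00 h' h1.1 h2.1).elim
  · exact (pi5 h' hz' LB hβ h1.1 (pi5_j1 hβ h2.1)).elim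
  · exact (pi5 h' hz' LB hβ h1.1 (pi5_j2 ht hc hac hβ h2.1)).elim
  · exact ⟨h2.1, Or.inl h1.1⟩
  · exact (z_11 hβ h1.1 h2.1).elim
  · exact (z_12 ht hc hac hβ h1.1 h2.1).elim
  · exact ⟨h2.1, Or.inr h1.1⟩
  · exact (z_21 ht hc a0 hβ h1.1 h2.1).elim
  · exact (z_22 hβ h1.1 h2.1).elim

/-- mode 1 -/
theorem core1 (P : Pos K t s a b c d e f) (h : HW t s c d) (hz : HZ t s a b)
    (hv : HV1 t s e f) : False := by
  have h' := h
  have hv' := hv
  obtain ⟨s0, st, st1, c1, c2, d1, d2⟩ := h
  obtain ⟨e0, e1, f0, f1⟩ := hv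
  have ht : (0:ℝ) < t := by linarith
  have hc : (0:ℝ) < c := by linarith
  rcases le_or_gt (t * (1 - s - d)) (s * c) with hα | hβ
  · rcases P.ball.chA P.k10 P.k01 (t := t) (s := s) (c := c) (d := d) (x := t - e) (y := f)
      (by linarith) s0 (by linarith) (by linarith) P.kWL P.kWB (by linarith) (by linarith)
      P.nVL with h1 | h1 | h1
    · exact P.pi1 h' hz hv' h1.1
    · rcases P.ball.chA P.k10 P.k01 (t := t) (s := s) (c := c) (d := d) (x := e) (y := 1 - s - f)
        (by linarith) s0 (by linarith) (by linarith) P.kWL P.kWB (by linarith) (by linarith)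
        P.nTV with h2 | h2 | h2
      · exact slope_Tv h' hv' h2.2
      · exact pi2_22 hα h1 h2
      · exact pi2_21 ht hc e0 hα h1 h2
    · rcases P.ball.chA P.k10 P.k01 (t := t) (s := s) (c := c) (d := d) (x := e) (y := 1 - s - f)
        (by linarith) s0 (by linarith) (by linarith) P.kWL P.kWB (by linarith) (by linarith)
        P.nTV with h2 | h2 | h2
      · exact slope_Tv h' hv' h2.2
      · exact pi2_12 ht hc (by linarith) hα h1 h2
      · exact pi2_11 hα h1 h2
  · rcases P.ball.chB P.k10 P.k01 (t := t) (s := s) (c := c) (d := d) (x := t - e) (y := f)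
      (by linarith) s0 (by linarith) (by linarith) (by linarith) d2 P.kWL P.kTL (by linarith)
      (by linarith) P.nVL with h1 | h1 | h1
    · exact P.pi1 h' hz hv' h1.1
    · obtain ⟨Hw, -⟩ := P.zB h' hz hβ
      rcases P.vz1 h' hz hv' with h2 | h2 | ⟨-, h2⟩
      · exact pi4_flat h' hz hv' Hw h2
      · exact pi4_steep h' hz hv' Hw h2
      · rcases h2 with h2 | h2 | h2
        · exact pi4_N0 h' hz hv' Hw h2
        · exact pi4_N1 h' hz hv' h1.1 h2
        · exact pi4_N2 h' hz hv' hβ Hw h1.1 h2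
    · exact slope_Lv h' hv' h1.2

/-- side `α` in mode 0 gives `Tv0` and `E`.  Stated so that it can be used in the mirror. -/
lemma alpha0 (hK : Ball K) (k10 : K 1 0) (k01 : K 0 1) (h : HW t s c d) (hv : HV0 t s e f)
    (kWL : K (c + t) d) (kWB : K c (d + s)) (nVL : ¬ K (2 * (t - e)) (2 * f))
    (nTV : ¬ K (2 * e) (2 * (1 - s - f))) (hα : t * (1 - s - d) ≤ s * c) :
    d < 2 * (e * d + (1 - t - c) * (1 - s - f)) ∧ 2 * t * (1 - s - f) + 2 * s * e < t := by
  have h' := h
  have hv' := hv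
  obtain ⟨s0, st, st1, c1, c2, d1, d2⟩ := h
  obtain ⟨e1, e2, f1, f2⟩ := hv
  have ht : (0:ℝ) < t := by linarith
  have hc : (0:ℝ) < c := by linarith
  rcases hK.chA k10 k01 (t := t) (s := s) (c := c) (d := d) (x := t - e) (y := f)
      (by linarith) s0 (by linarith) (by linarith) kWL kWB (by linarith) (by linarith)
      nVL with h1 | h1 | h1
  · exact (slope0_Lv h' hv' h1.2).elim
  · refine ⟨?_, E_of_Lv2 hα h1⟩
    rcases hK.chA k10 k01 (t := t) (s := s) (c := c) (d := d) (x := e) (y := 1 - s - f)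
        (by linarith) s0 (by linarith) (by linarith) kWL kWB (by linarith) (by linarith)
        nTV with h2 | h2 | h2
    · exact h2.1
    · exact (pi2_22 hα h1 h2).elim
    · exact (pi2_21 ht hc (by linarith) hα h1 h2).elim
  · refine ⟨?_, E_of_Lv1 ht hc e2 hα h1⟩
    rcases hK.chA k10 k01 (t := t) (s := s) (c := c) (d := d) (x := e) (y := 1 - s - f)
        (by linarith) s0 (by linarith) (by linarith) kWL kWB (by linarith) (by linarith)
        nTV with h2 | h2 | h2
    · exact h2.1
    · exact (pi2_12 ht hc (by linarith) hα h1 h2).elim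
    · exact (pi2_11 hα h1 h2).elim

/-- side `β` in mode 0. -/
lemma beta0 (hK : Ball K) (k10 : K 1 0) (k01 : K 0 1) (h : HW t s c d) (hv : HV0 t s e f)
    (kWL : K (c + t) d) (kTL : K t (1 - s)) (nVL : ¬ K (2 * (t - e)) (2 * f))
    (nTV : ¬ K (2 * e) (2 * (1 - s - f))) :
    t < 2 * (s * (t - e) + t * f) ∧
    (d < 2 * (e * d + (1 - t - c) * (1 - s - f)) ∨
      c * (1 - s) + t * (1 - s - d) < 2 * ((1 - s - d) * e + c * (1 - s - f))) := by
  have h' := h
  have hv' := hv
  obtain ⟨s0, st, st1, c1, c2, d1, d2⟩ := h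
  obtain ⟨e1, e2, f1, f2⟩ := hv
  rcases hK.chB k10 k01 (t := t) (s := s) (c := c) (d := d) (x := t - e) (y := f)
      (by linarith) s0 (by linarith) (by linarith) (by linarith) d2 kWL kTL (by linarith)
      (by linarith) nVL with h1 | h1 | h1
  · exact (slope0_Lv h' hv' h1.2).elim
  · exact (slope0_Lv' h' hv' (by linarith [h1.2])).elim
  · refine ⟨h1.1, ?_⟩
    rcases hK.chB k10 k01 (t := t) (s := s) (c := c) (d := d) (x := e) (y := 1 - s - f)
        (by linarith) s0 (by linarith) (by linarith) (by linarith) d2 kWL kTL (by linarith)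
        (by linarith) nTV with h2 | h2 | h2
    · exact Or.inl h2.1
    · exact Or.inr h2.1
    · exfalso
      have h3 := h1.1
      have h4 := h2.1
      nlinarith

/-- mode 0 -/
theorem core0 (P : Pos K t s a b c d e f) (h : HW t s c d) (hz : HZ t s a b)
    (hv : HV0 t s e f) : False := by
  have h' := h
  have hv' := hv
  have hz' := hz
  obtain ⟨s0, st, st1, c1, c2, d1, d2⟩ := h
  obtain ⟨e1, e2, f1, f2⟩ := hv
  obtain ⟨a0, a1, b0, b1⟩ := hz
  have ht : (0:ℝ) < t := by linarith
  have hc : (0:ℝ) < c := by linarith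
  -- the mirror
  have hK' := P.ball.reflX
  have k10' : K (-1) 0 := by simpa using P.ball.symm _ _ P.k10
  have k01' : K (-0) 1 := by simpa using P.k01
  have hm : HW (1 - t) s e f := ⟨s0, by linarith, by linarith, by linarith, by linarith, f1, f2⟩
  have hvm : HV0 (1 - t) s c d := ⟨c1, c2, d1, d2⟩
  have mA := fun hα => alpha0 (t := 1 - t) (s := s) (c := e) (d := f) (e := c) (f := d) hK' k10' k01' hm hvm
    P.kVR P.kVB P.nWR P.nTW hα
  have mB := beta0 (t := 1 - t) (s := s) (c := e) (d := f) (e := c) (f := d) hK' k10' k01' hm hvm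
    P.kVR P.kTR P.nWR P.nTW
  rw [sub_sub_cancel] at mA mB
  have A := fun hα => alpha0 P.ball P.k10 P.k01 h' hv' P.kWL P.kWB P.nVL P.nTV hα
  have B := beta0 P.ball P.k10 P.k01 h' hv' P.kWL P.kTL P.nVL P.nTV
  rcases le_or_gt (t * (1 - s - d)) (s * c) with hα | hβ
  · obtain ⟨Tv0, E⟩ := A hα
    rcases le_or_gt ((1 - t) * (1 - s - f)) (s * e) with hα' | hβ'
    · obtain ⟨Tw0, E'⟩ := mA hα'
      exact pi6 h' hv' Tv0 Tw0
    · obtain ⟨Rw2, Tw0 | Tw1⟩ := mB
      · exact pi6 h' hv' Tv0 Tw0
      · exact pi8 (g := 1 - t - c) (φ := 1 - s - f) s0 st (by linarith) (by linarith)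
          (by linarith) d1 e1 e2 (by rw [sub_sub_cancel]; exact hα) hβ'.le Tv0
          (by rw [sub_sub_cancel]; linarith) E
  · obtain ⟨Lv2, hB⟩ := B
    rcases le_or_gt ((1 - t) * (1 - s - f)) (s * e) with hα' | hβ'
    · obtain ⟨Tw0, E'⟩ := mA hα'
      rcases hB with Tv0 | Tv1
      · exact pi6 h' hv' Tv0 Tw0
      · refine pi8 (t := 1 - t) (s := s) (g := t - e) (d := f) (e := c) (φ := 1 - s - d) s0
          (by linarith) (by linarith) (by linarith) (by linarith) f1 c1 c2 ?_ ?_ ?_ ?_ E'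
        · rw [sub_sub_cancel, sub_sub_cancel]; exact hα'
        · rw [sub_sub_cancel]; exact hβ.le
        · linarith
        · rw [sub_sub_cancel, sub_sub_cancel]; linarith
    · obtain ⟨Hw, hBz⟩ := P.zB h' hz' hβ
      rcases hB with Tv0 | Tv1
      · rcases hBz with Hz | Hz
        · exact I2 h' hv' (K1_of_1 h' hz' hβ Hw Hz) Tv0 Lv2
        · exact I2 h' hv' (K1_of_2 h' hz' Hw Hz) Tv0 Lv2
      · obtain ⟨Rw2, -⟩ := mB
        have Rw2' : 1 - t < 2 * (s * (1 - t - c) + (1 - t) * d) := Rw2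
        have hn : ¬ K (-(2 * (a + e))) (2 * (f - b)) := by
          intro hk
          apply P.nZV
          have := P.ball.symm _ _ hk
          have e1 : -(2 * (f - b)) = 2 * (b - f) := by ring
          rw [neg_neg, e1] at this; exact this
        rcases hK'.chB k10' k01' (t := 1 - t) (s := s) (c := e) (d := f) (x := a + e) (y := f - b)
          (by linarith) s0 (by linarith) (by linarith) (by linarith) f2 P.kVR P.kTR (by linarith)
          (by linarith) hn with h2 | h2 | h2
        · have ha := pi4_a h' hz' Hw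
          have h3 := h2.1
          rw [sub_sub_cancel] at h3
          have h4 := mul_nonneg (show (0:ℝ) ≤ t - e by linarith) b0
          have h5 := mul_nonneg (show (0:ℝ) ≤ f by linarith) (show (0:ℝ) ≤ 1 - 2 * t - 2 * a by linarith)
          nlinarith
        · have h3 := h2.1
          rcases hBz with Hz | Hz
          · exact I3_11 h' hz' hv' hβ Hw Rw2' Tv1 Hz h3
          · exact I3_21 h' hz' hv' hβ Hw Rw2' Tv1 Hz h3
        · have h3 := h2.1
          rcases hBz with Hz | Hz
          · exact I3_12 h' hz' hv' (P.LB h') hβ Hw Rw2' Tv1 Hz h3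
          · exact I3_22 h' hz' hv' hβ Hw Rw2' Tv1 Hz h3

end Pool.Agent.K4H60.Seven
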