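import Pool.Agent.K4H60.Seven.Config

set_option autoImplicit false

namespace Pool.Agent.K4H60.Seven

theorem seven (E : Type) [NormedAddCommGroup E] [NormedSpace ℝ E]
    (hE : Module.finrank ℝ E = 2) (p : Fin 7 → E) (hp : Function.Injective p) :
    ∃ i j k l : Fin 7, k ≠ l ∧ 2 * dist (p k) (p l) ≤ dist (p i) (p j) := by
  by_contra hcon
  push Not at hcon
  haveI : Module.Finite ℝ E := Module.finite_of_finrank_eq_succ hE
  let b := Module.finBasisOfFinrankEq ℝ E hE
  -- coordinates
  obtain ⟨u, hu⟩ : ∃ u : E →ₗ[ℝ] ℝ, u = b.coord 0 := ⟨_, rfl⟩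
  obtain ⟨v, hv⟩ : ∃ v : E →ₗ[ℝ] ℝ, v = b.coord 1 := ⟨_, rfl⟩
  have ext' : ∀ w w' : E, u w = u w' → v w = v w' → w = w' := by
    intro w w' h0 h1
    apply b.ext_elem
    intro i
    rw [hu] at h0; rw [hv] at h1
    fin_cases i
    · simpa using h0
    · simpa using h1
  -- maximal determinant
  let D : Fin 7 × Fin 7 × Fin 7 × Fin 7 → ℝ := fun q =>
    u (p q.1 - p q.2.1) * v (p q.2.2.1 - p q.2.2.2) - v (p q.1 - p q.2.1) * u (p q.2.2.1 - p q.2.2.2)
  obtain ⟨⟨R, L, T, B⟩, hmax⟩ := Finite.exists_max D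
  have hD : ∀ i j k l : Fin 7, D (i, j, k, l) =
    u (p i - p j) * v (p k - p l) - v (p i - p j) * u (p k - p l) := fun _ _ _ _ => rfl
  have hmax' : ∀ i j k l : Fin 7, D (i, j, k, l) ≤ D (R, L, T, B) := fun i j k l => hmax _
  have hDpos : 0 < D (R, L, T, B) := by
    by_contra hle
    push Not at hle
    have hall : ∀ i j k l : Fin 7, D (i, j, k, l) = 0 := by
      intro i j k l
      have h1 := hmax' i j k l
      have h2 := hmax' j i k l
      have h3 : D (j, i, k, l) = - D (i, j, k, l) := by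
        rw [hD, hD, ← neg_sub (p i) (p j), map_neg, map_neg]; ring
      linarith
    -- collinear
    have hw : p 1 - p 0 ≠ 0 := by
      rw [sub_ne_zero]; exact hp.ne (by decide)
    have hcol : ∃ τ : ℝ, p 2 - p 0 = τ • (p 1 - p 0) := by
      have h0 := hall 1 0 2 0
      rw [hD] at h0
      by_cases hu0 : u (p 1 - p 0) = 0
      · have hv0 : v (p 1 - p 0) ≠ 0 := by
          intro hv0
          apply hw
          apply ext' <;> simp [hu0, hv0]
        refine ⟨v (p 2 - p 0) / v (p 1 - p 0), ext' _ _ ?_ ?_⟩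
        · rw [map_smul, smul_eq_mul, hu0, mul_zero]
          rw [hu0, zero_mul, zero_sub, neg_eq_zero] at h0
          rcases mul_eq_zero.1 h0 with h | h
          · exact absurd h hv0
          · exact h
        · rw [map_smul, smul_eq_mul, div_mul_cancel₀ _ hv0]
      · refine ⟨u (p 2 - p 0) / u (p 1 - p 0), ext' _ _ ?_ ?_⟩
        · rw [map_smul, smul_eq_mul, div_mul_cancel₀ _ hu0]
        · rw [map_smul, smul_eq_mul, div_mul_eq_mul_div, eq_div_iff hu0]
          linarith
    obtain ⟨τ, hτ⟩ := hcol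
    have d20 : dist (p 2) (p 0) = |τ| * ‖p 1 - p 0‖ := by
      rw [dist_eq_norm, hτ, norm_smul, Real.norm_eq_abs]
    have d10 : dist (p 1) (p 0) = ‖p 1 - p 0‖ := dist_eq_norm _ _
    have d21 : dist (p 2) (p 1) = |τ - 1| * ‖p 1 - p 0‖ := by
      have e : p 2 - p 1 = (τ - 1) • (p 1 - p 0) := by
        rw [sub_smul, one_smul, ← hτ]; abel
      rw [dist_eq_norm, e, norm_smul, Real.norm_eq_abs]
    have a1 := hcon 2 1 2 0 (by decide)
    have a2 := hcon 2 1 1 0 (by decide)
    have a3 := hcon 2 0 2 1 (by decide)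
    have a4 := hcon 2 0 1 0 (by decide)
    have a5 := hcon 1 0 2 1 (by decide)
    have a6 := hcon 1 0 2 0 (by decide)
    rw [d21, d20] at a1 a3
    rw [d21, d10] at a2 a5
    rw [d20, d10] at a4 a6
    rcases lt_or_ge τ 0 with h | h
    · rw [abs_of_neg h, abs_of_neg (show τ - 1 < 0 by linarith)] at a1
      rw [abs_of_neg (show τ - 1 < 0 by linarith)] at a2
      linarith
    · rcases lt_or_ge τ 1 with h' | h'
      · rw [abs_of_neg (show τ - 1 < 0 by linarith)] at a5
        rw [abs_of_nonneg h] at a6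
        linarith
      · rw [abs_of_nonneg h, abs_of_nonneg (show 0 ≤ τ - 1 by linarith)] at a3
        rw [abs_of_nonneg h] at a4
        linarith
  obtain ⟨Δ, hΔ⟩ : ∃ Δ, Δ = D (R, L, T, B) := ⟨_, rfl⟩
  rw [← hΔ] at hDpos
  have hΔ0 : Δ ≠ 0 := hDpos.ne'
  obtain ⟨P, hP⟩ : ∃ P, P = p R - p L := ⟨_, rfl⟩
  obtain ⟨Q, hQ⟩ : ∃ Q, Q = p T - p B := ⟨_, rfl⟩
  have hΔ' : Δ = u P * v Q - v P * u Q := by rw [hΔ, hD, hP, hQ]
  -- the maximal distance
  obtain ⟨⟨i0, j0⟩, hM⟩ := Finite.exists_max (fun q : Fin 7 × Fin 7 => dist (p q.1) (p q.2))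
  obtain ⟨M, hM0⟩ : ∃ M, M = dist (p i0) (p j0) := ⟨_, rfl⟩
  have hMle : ∀ i j, dist (p i) (p j) ≤ M := fun i j => by rw [hM0]; exact hM (i, j)
  have hMlt : ∀ i j, i ≠ j → M < 2 * dist (p i) (p j) := fun i j h => by
    rw [hM0]; exact hcon _ _ _ _ h
  have hMnn : 0 ≤ M := by rw [hM0]; exact dist_nonneg
  -- coordinates with respect to `P`, `Q`
  let xx : E → ℝ := fun w => (u w * v Q - v w * u Q) / Δ
  let yy : E → ℝ := fun w => (u P * v w - v P * u w) / Δ
  have hxx : ∀ w, xx w = (u w * v Q - v w * u Q) / Δ := fun _ => rfl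
  have hyy : ∀ w, yy w = (u P * v w - v P * u w) / Δ := fun _ => rfl
  have xsub : ∀ w w', xx (w - w') = xx w - xx w' := by
    intro w w'
    rw [hxx, hxx, hxx, map_sub, map_sub]; ring
  have ysub : ∀ w w', yy (w - w') = yy w - yy w' := by
    intro w w'
    rw [hyy, hyy, hyy, map_sub, map_sub]; ring
  have hrep : ∀ w, w = xx w • P + yy w • Q := by
    intro w
    apply ext'
    · rw [map_add, map_smul, map_smul, smul_eq_mul, smul_eq_mul, hxx, hyy,
        div_mul_eq_mul_div, div_mul_eq_mul_div, ← add_div, eq_div_iff hΔ0, hΔ']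
      ring
    · rw [map_add, map_smul, map_smul, smul_eq_mul, smul_eq_mul, hxx, hyy,
        div_mul_eq_mul_div, div_mul_eq_mul_div, ← add_div, eq_div_iff hΔ0, hΔ']
      ring
  have xP : xx P = 1 := by rw [hxx, ← hΔ', div_self hΔ0]
  have yP : yy P = 0 := by rw [hyy]; rw [div_eq_zero_iff]; left; ring
  have xQ : xx Q = 0 := by rw [hxx]; rw [div_eq_zero_iff]; left; ring
  have yQ : yy Q = 1 := by rw [hyy, ← hΔ', div_self hΔ0]
  have hx1 : ∀ i j, xx (p i - p j) ≤ 1 := by
    intro i j
    rw [hxx, div_le_one hDpos, hΔ, hQ]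
    exact hmax' i j T B
  have hy1 : ∀ i j, yy (p i - p j) ≤ 1 := by
    intro i j
    rw [hyy, div_le_one hDpos, hΔ, hP]
    exact hmax' R L i j
  have C : Cfg (fun x y => ‖x • P + y • Q‖ ≤ M) (fun i => xx (p i) - xx (p B))
      (fun i => yy (p i) - yy (p L)) L R B T (xx (p B) - xx (p L)) (yy (p L) - yy (p B)) := by
    constructor
    · constructor
      · intro x y h
        have e : (-x) • P + (-y) • Q = -(x • P + y • Q) := by
          rw [neg_smul, neg_smul, neg_add]
        rw [e, norm_neg]; exact h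
      · intro x y x' y' α β h h' hα hβ hs
        have e : (α * x + β * x') • P + (α * y + β * y') • Q
            = α • (x • P + y • Q) + β • (x' • P + y' • Q) := by
          module
        rw [e]
        calc ‖α • (x • P + y • Q) + β • (x' • P + y' • Q)‖
            ≤ ‖α • (x • P + y • Q)‖ + ‖β • (x' • P + y' • Q)‖ := norm_add_le _ _
          _ = α * ‖x • P + y • Q‖ + β * ‖x' • P + y' • Q‖ := by
              rw [norm_smul, norm_smul, Real.norm_of_nonneg hα, Real.norm_of_nonneg hβ]
          _ ≤ α * M + β * M := by gcongr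
          _ = (α + β) * M := by ring
          _ ≤ 1 * M := by gcongr
          _ = M := one_mul M
    · intro i j
      have e1 : xx (p i) - xx (p B) - (xx (p j) - xx (p B)) = xx (p i - p j) := by
        rw [xsub]; ring
      have e2 : yy (p i) - yy (p L) - (yy (p j) - yy (p L)) = yy (p i - p j) := by
        rw [ysub]; ring
      rw [e1, e2, ← hrep, ← dist_eq_norm]
      exact hMle i j
    · intro i j hij hle
      have e1 : 2 * (xx (p i) - xx (p B) - (xx (p j) - xx (p B))) = 2 * xx (p i - p j) := by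
        rw [xsub]; ring
      have e2 : 2 * (yy (p i) - yy (p L) - (yy (p j) - yy (p L))) = 2 * yy (p i - p j) := by
        rw [ysub]; ring
      have e3 : (2 * xx (p i - p j)) • P + (2 * yy (p i - p j)) • Q
          = (2:ℝ) • (xx (p i - p j) • P + yy (p i - p j) • Q) := by module
      rw [e1, e2, e3, ← hrep, norm_smul, ← dist_eq_norm, Real.norm_eq_abs, abs_two] at hle
      exact absurd hle (not_le.2 (hMlt i j hij))
    · ring
    · ring
    · have := xsub (p R) (p L)
      rw [← hP, xP] at this; linarith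
    · have := ysub (p R) (p L)
      rw [← hP, yP] at this; linarith
    · ring
    · ring
    · have := xsub (p T) (p B)
      rw [← hQ, xQ] at this; linarith
    · have := ysub (p T) (p B)
      rw [← hQ, yQ] at this; linarith
    · intro i
      have h1 := hx1 R i
      have h2 := hx1 i L
      have h3 := xsub (p R) (p L)
      rw [← hP, xP] at h3
      rw [xsub] at h1 h2
      constructor <;> linarith
    · intro i
      have h1 := hy1 T i
      have h2 := hy1 i B
      have h3 := ysub (p T) (p B)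
      rw [← hQ, yQ] at h3
      rw [ysub] at h1 h2
      constructor <;> linarith
  -- three extra points
  have hcard : 2 < (({L, R, B, T} : Finset (Fin 7))ᶜ).card := by
    rw [Finset.card_compl, Fintype.card_fin]
    have : ({L, R, B, T} : Finset (Fin 7)).card ≤ 4 := Finset.card_le_four
    omega
  obtain ⟨i, hi, j, hj, k, hk, hij, hik, hjk⟩ := Finset.two_lt_card.1 hcard
  have hex : ∀ m, m ∈ (({L, R, B, T} : Finset (Fin 7))ᶜ) → Ex L R B T m := by
    intro m hm
    simp only [Finset.mem_compl, Finset.mem_insert, Finset.mem_singleton, not_or] at hm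
    exact hm
  exact C.false3 hij hik hjk (hex i hi) (hex j hj) (hex k hk)

end Pool.Agent.K4H60.Seven
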