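import Mathlib

set_option autoImplicit false

namespace Pool.Agent.K4H60.Seven

/-- canonical position of the parallelogram parameters and the outer point `w = (c, d)` -/
structure HW (t s c d : ℝ) : Prop where
  s0 : 0 ≤ s
  st : s < t
  st1 : s + t < 1
  c1 : 1 - t < 2 * c
  c2 : c ≤ 1 - t
  d1 : 1 - s < 2 * d
  d2 : d ≤ 1 - s

/-- the inner point `z = (a, b)` -/
structure HZ (t s a b : ℝ) : Prop where
  a0 : 0 ≤ a
  a1 : 2 * a < 1 - t
  b0 : 0 ≤ b
  b1 : 2 * b < 1 - s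

/-- the inner point `v = (-e, f)` -/
structure HV1 (t s e f : ℝ) : Prop where
  e0 : 0 < e
  e1 : 2 * e < t
  f0 : 0 ≤ f
  f1 : 2 * f < 1 - s

/-- the outer point `v = (-e, f)` -/
structure HV0 (t s e f : ℝ) : Prop where
  e1 : t < 2 * e
  e2 : e ≤ t
  f1 : 1 - s < 2 * f
  f2 : f ≤ 1 - s

namespace HW

variable {t s c d : ℝ}

lemma gm (h : HW t s c d) : (1 - t - c) * (1 - s) < (1 - t) * d := by
  obtain ⟨s0, st, st1, c1, c2, d1, d2⟩ := h
  have h1 : 0 < (1 - t) * (2 * d - (1 - s)) := mul_pos (by linarith) (by linarith)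
  have h2 : 0 < (2 * c - (1 - t)) * (1 - s) := mul_pos (by linarith) (by linarith)
  nlinarith

lemma y0 (h : HW t s c d) : 0 < t * d - s * (1 - t - c) := by
  obtain ⟨s0, st, st1, c1, c2, d1, d2⟩ := h
  have h1 : 0 < t * (d - (1 - t - c)) := mul_pos (by linarith) (by linarith)
  have h2 : 0 ≤ (t - s) * (1 - t - c) := mul_nonneg (by linarith) (by linarith)
  nlinarith

lemma x0 (h : HW t s c d) : 0 < c * d - (1 - t - c) * (1 - s - d) := by
  obtain ⟨s0, st, st1, c1, c2, d1, d2⟩ := h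
  have h1 : 0 < d * (c - (1 - t - c)) := mul_pos (by linarith) (by linarith)
  have h2 : 0 ≤ (1 - t - c) * (d - (1 - s - d)) := mul_nonneg (by linarith) (by linarith)
  nlinarith

end HW

/-! ### mode 1, the inequalities `V0` and `Z2` are incompatible with `v - z` -/

section PI1
variable {t s a b c d e f : ℝ}

lemma star (h : HW t s c d)
    (V0 : d < 2 * ((t - e) * d + (1 - t - c) * f))
    (Z2 : 1 - s < 2 * ((1 - s) * (1 - t - a) + t * b)) :
    2 * (1 - s) * d * (a + e) < 2 * t * b * d + 2 * (1 - t - c) * f * (1 - s) := by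
  obtain ⟨s0, st, st1, c1, c2, d1, d2⟩ := h
  have h1 := mul_lt_mul_of_pos_left V0 (show (0:ℝ) < 1 - s by linarith)
  have h2 := mul_lt_mul_of_pos_left Z2 (show (0:ℝ) < d by linarith)
  nlinarith

lemma pi1_flat (h : HW t s c d) (hv : HV1 t s e f)
    (S : 2 * (1 - s) * d * (a + e) < 2 * t * b * d + 2 * (1 - t - c) * f * (1 - s))
    (H : 1 - s < 2 * ((1 - s) * (a + e) + t * (f - b))) : False := by
  have g1 := h.gm
  obtain ⟨s0, st, st1, c1, c2, d1, d2⟩ := h
  obtain ⟨e0, e1, f0, f1⟩ := hv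
  have h1 := mul_lt_mul_of_pos_left H (show (0:ℝ) < d by linarith)
  have h2 : 0 ≤ (1 - s - 2 * f) * ((1 - t - c) * (1 - s) + t * d) := by
    apply mul_nonneg (by linarith)
    have := mul_nonneg (show (0:ℝ) ≤ 1 - t - c by linarith) (show (0:ℝ) ≤ 1 - s by linarith)
    have := mul_nonneg (show (0:ℝ) ≤ t by linarith) (show (0:ℝ) ≤ d by linarith)
    linarith
  have h3 := mul_pos (show (0:ℝ) < 1 - s by linarith) (sub_pos.2 g1)
  nlinarith

lemma pi1_steep (h : HW t s c d) (hz : HZ t s a b) (hv : HV1 t s e f)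
    (S : 2 * (1 - s) * d * (a + e) < 2 * t * b * d + 2 * (1 - t - c) * f * (1 - s))
    (H : 1 - t < 2 * (s * (a + e) + (1 - t) * (f - b))) : False := by
  have g1 := h.gm
  obtain ⟨s0, st, st1, c1, c2, d1, d2⟩ := h
  obtain ⟨e0, e1, f0, f1⟩ := hv
  obtain ⟨a0, a1, b0, b1⟩ := hz
  have hd : (0:ℝ) < d := by linarith
  have hm : (0:ℝ) < 1 - s := by linarith
  have h1 := mul_lt_mul_of_pos_left H (mul_pos hm hd)
  have h2 := mul_le_mul_of_nonneg_left S.le s0
  have h3 : 0 ≤ b * (d * (1 - s - t)) := mul_nonneg b0 (mul_nonneg hd.le (by linarith))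
  have h4 : 0 ≤ (1 - s - 2 * f) * ((1 - s) * (s * (1 - t - c) + (1 - t) * d)) := by
    apply mul_nonneg (by linarith)
    apply mul_nonneg hm.le
    have := mul_nonneg s0 (show (0:ℝ) ≤ 1 - t - c by linarith)
    have := mul_nonneg (show (0:ℝ) ≤ 1 - t by linarith) hd.le
    linarith
  have h5 := mul_nonneg (mul_nonneg s0 hm.le) (sub_pos.2 g1).le
  nlinarith

lemma pi1_N0 (h : HW t s c d) (hz : HZ t s a b)
    (S : 2 * (1 - s) * d * (a + e) < 2 * t * b * d + 2 * (1 - t - c) * f * (1 - s))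
    (H : d < 2 * ((a + e) * d + (1 - t - c) * (b - f))) : False := by
  have g1 := h.gm
  obtain ⟨s0, st, st1, c1, c2, d1, d2⟩ := h
  obtain ⟨a0, a1, b0, b1⟩ := hz
  have hd : (0:ℝ) < d := by linarith
  have hm : (0:ℝ) < 1 - s := by linarith
  have h1 := mul_lt_mul_of_pos_left H hm
  have h2 : 0 ≤ (1 - s - 2 * b) * ((1 - t - c) * (1 - s) + t * d) := by
    apply mul_nonneg (by linarith)
    have := mul_nonneg (show (0:ℝ) ≤ 1 - t - c by linarith) hm.le
    have := mul_nonneg (show (0:ℝ) ≤ t by linarith) hd.le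
    linarith
  have h3 := mul_pos hm (sub_pos.2 g1)
  nlinarith

lemma pi1_A2 (h : HW t s c d) (hz : HZ t s a b) (hv : HV1 t s e f)
    (hα : t * (1 - s - d) ≤ s * c)
    (S : 2 * (1 - s) * d * (a + e) < 2 * t * b * d + 2 * (1 - t - c) * f * (1 - s))
    (H : c * s + t * d + t * s < 2 * (s * (a + e) + t * (b - f))) : False := by
  have g2 := h.y0
  obtain ⟨s0, st, st1, c1, c2, d1, d2⟩ := h
  obtain ⟨e0, e1, f0, f1⟩ := hv
  obtain ⟨a0, a1, b0, b1⟩ := hz
  have hd : (0:ℝ) < d := by linarith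
  have hm : (0:ℝ) < 1 - s := by linarith
  have ht : (0:ℝ) < t := by linarith
  have h1 := mul_lt_mul_of_pos_left H (mul_pos hm hd)
  have h2 := mul_le_mul_of_nonneg_left S.le s0
  have h3 := mul_nonneg (mul_nonneg f0 hm.le) g2.le
  have h4 := mul_pos (mul_pos ht hd) (show (0:ℝ) < 1 - s - 2 * b by linarith)
  have h5 := mul_nonneg (mul_pos hm hd).le (sub_nonneg.2 hα)
  nlinarith

lemma pi1_A1 (h : HW t s c d) (hz : HZ t s a b) (hv : HV1 t s e f)
    (hα : t * (1 - s - d) ≤ s * c)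
    (S : 2 * (1 - s) * d * (a + e) < 2 * t * b * d + 2 * (1 - t - c) * f * (1 - s))
    (H : c < 2 * (c * (b - f) + (1 - s - d) * (a + e))) : False := by
  have g3 := h.x0
  obtain ⟨s0, st, st1, c1, c2, d1, d2⟩ := h
  obtain ⟨e0, e1, f0, f1⟩ := hv
  obtain ⟨a0, a1, b0, b1⟩ := hz
  have hd : (0:ℝ) < d := by linarith
  have hm : (0:ℝ) < 1 - s := by linarith
  have ht : (0:ℝ) < t := by linarith
  have h1 := mul_lt_mul_of_pos_left H (mul_pos hm hd)
  have h2 := mul_le_mul_of_nonneg_left S.le (show (0:ℝ) ≤ 1 - s - d by linarith)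
  have h3 := mul_nonneg (mul_nonneg f0 hm.le) g3.le
  have h4 : 0 ≤ (1 - s - 2 * b) * (d * (c * (1 - s) + (1 - s - d) * t)) := by
    apply mul_nonneg (by linarith)
    apply mul_nonneg hd.le
    have := mul_nonneg (show (0:ℝ) ≤ c by linarith) hm.le
    have := mul_nonneg (show (0:ℝ) ≤ 1 - s - d by linarith) ht.le
    linarith
  have h5 := mul_nonneg (mul_pos hm hd).le (sub_nonneg.2 hα)
  nlinarith

lemma pi1_B1 (h : HW t s c d) (hz : HZ t s a b) (hv : HV1 t s e f)
    (S : 2 * (1 - s) * d * (a + e) < 2 * t * b * d + 2 * (1 - t - c) * f * (1 - s))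
    (H : c * (1 - s) + t * (1 - s - d) < 2 * ((1 - s - d) * (a + e) + c * (b - f))) : False := by
  have g3 := h.x0
  obtain ⟨s0, st, st1, c1, c2, d1, d2⟩ := h
  obtain ⟨e0, e1, f0, f1⟩ := hv
  obtain ⟨a0, a1, b0, b1⟩ := hz
  have hd : (0:ℝ) < d := by linarith
  have hm : (0:ℝ) < 1 - s := by linarith
  have ht : (0:ℝ) < t := by linarith
  have h1 := mul_lt_mul_of_pos_left H (mul_pos hm hd)
  have h2 := mul_le_mul_of_nonneg_left S.le (show (0:ℝ) ≤ 1 - s - d by linarith)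
  have h3 := mul_nonneg (mul_nonneg f0 hm.le) g3.le
  have h4 : 0 ≤ (1 - s - 2 * b) * (d * (c * (1 - s) + (1 - s - d) * t)) := by
    apply mul_nonneg (by linarith)
    apply mul_nonneg hd.le
    have := mul_nonneg (show (0:ℝ) ≤ c by linarith) hm.le
    have := mul_nonneg (show (0:ℝ) ≤ 1 - s - d by linarith) ht.le
    linarith
  nlinarith

lemma pi1_B2 (h : HW t s c d) (hz : HZ t s a b) (hv : HV1 t s e f)
    (S : 2 * (1 - s) * d * (a + e) < 2 * t * b * d + 2 * (1 - t - c) * f * (1 - s))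
    (H : t < 2 * (s * (a + e) + t * (b - f))) : False := by
  have g2 := h.y0
  obtain ⟨s0, st, st1, c1, c2, d1, d2⟩ := h
  obtain ⟨e0, e1, f0, f1⟩ := hv
  obtain ⟨a0, a1, b0, b1⟩ := hz
  have hd : (0:ℝ) < d := by linarith
  have hm : (0:ℝ) < 1 - s := by linarith
  have ht : (0:ℝ) < t := by linarith
  have h1 := mul_lt_mul_of_pos_left H (mul_pos hm hd)
  have h2 := mul_le_mul_of_nonneg_left S.le s0
  have h3 := mul_nonneg (mul_nonneg f0 hm.le) g2.le
  have h4 := mul_pos (mul_pos ht hd) (show (0:ℝ) < 1 - s - 2 * b by linarith)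
  nlinarith

end PI1

end Pool.Agent.K4H60.Seven
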