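import Pool.Agent.K4H60.Seven.Poly

set_option autoImplicit false

namespace Pool.Agent.K4H60.Seven

/-! ### combinations for `v - L = (t - e, f)` and `T - v = (e, 1 - s - f)`, side `α` -/

section PI2
variable {t s a b c d e f : ℝ}

lemma pi2_22 (hα : t * (1 - s - d) ≤ s * c)
    (H1 : c * s + t * d + t * s < 2 * (s * (t - e) + t * f))
    (H2 : c * s + t * d + t * s < 2 * (s * e + t * (1 - s - f))) : False := by
  nlinarith

lemma pi2_11 (hα : t * (1 - s - d) ≤ s * c)
    (H1 : c < 2 * (c * f + (1 - s - d) * (t - e)))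
    (H2 : c < 2 * (c * (1 - s - f) + (1 - s - d) * e)) : False := by
  nlinarith

lemma pi2_21 (ht : 0 < t) (hc : 0 < c) (he : 0 < e) (hα : t * (1 - s - d) ≤ s * c)
    (H1 : c * s + t * d + t * s < 2 * (s * (t - e) + t * f))
    (H2 : c < 2 * (c * (1 - s - f) + (1 - s - d) * e)) : False := by
  have h1 := mul_lt_mul_of_pos_left H1 hc
  have h2 := mul_lt_mul_of_pos_left H2 ht
  have h3 := mul_nonneg (show (0:ℝ) ≤ c + 2 * e by linarith) (sub_nonneg.2 hα)
  nlinarith

lemma pi2_12 (ht : 0 < t) (hc : 0 < c) (he : e ≤ t) (hα : t * (1 - s - d) ≤ s * c)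
    (H1 : c < 2 * (c * f + (1 - s - d) * (t - e)))
    (H2 : c * s + t * d + t * s < 2 * (s * e + t * (1 - s - f))) : False := by
  have h1 := mul_lt_mul_of_pos_left H2 hc
  have h2 := mul_lt_mul_of_pos_left H1 ht
  have h3 := mul_nonneg (show (0:ℝ) ≤ c + 2 * t - 2 * e by linarith) (sub_nonneg.2 hα)
  nlinarith

/-- slopes: in mode 1, `T - v` is not in the flat cone -/
lemma slope_Tv (h : HW t s c d) (hv : HV1 t s e f)
    (H : 0 ≤ e * d - (1 - s - f) * (c + t)) : False := by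
  obtain ⟨s0, st, st1, c1, c2, d1, d2⟩ := h
  obtain ⟨e0, e1, f0, f1⟩ := hv
  have h1 : 0 < (t - 2 * e) * d := mul_pos (by linarith) (by linarith)
  have h2 : 0 < (2 * (1 - s - f) - d) * t := mul_pos (by linarith) (by linarith)
  have h3 : 0 < (1 - s - f) * c := mul_pos (by linarith) (by linarith)
  nlinarith

end PI2

section PI3
variable {t s a b c d e f : ℝ}

/-- mode 1, side `β`: `v - L` is not in the steep cone -/
lemma slope_Lv (h : HW t s c d) (hv : HV1 t s e f)
    (H : 0 ≤ t * f - (1 - s) * (t - e)) : False := by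
  obtain ⟨s0, st, st1, c1, c2, d1, d2⟩ := h
  obtain ⟨e0, e1, f0, f1⟩ := hv
  have h1 : 0 < t * (1 - s - 2 * f) := mul_pos (by linarith) (by linarith)
  have h2 : 0 < (1 - s) * (t - 2 * e) := mul_pos (by linarith) (by linarith)
  nlinarith

/-! combinations for `z - B = (a, b + s)` and `w - z = (c - a, d - b)`, side `β` -/

lemma z_00 (h : HW t s c d)
    (H1 : d < 2 * (a * d + (1 - t - c) * (b + s)))
    (H2 : d < 2 * ((c - a) * d + (1 - t - c) * (d - b))) : False := by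
  have := h.y0
  nlinarith

lemma z_11 (hβ : s * c < t * (1 - s - d))
    (H1 : c * (1 - s) + t * (1 - s - d) < 2 * ((1 - s - d) * a + c * (b + s)))
    (H2 : c * (1 - s) + t * (1 - s - d) < 2 * ((1 - s - d) * (c - a) + c * (d - b))) : False := by
  nlinarith

lemma z_22 (hβ : s * c < t * (1 - s - d))
    (H1 : t < 2 * (s * a + t * (b + s)))
    (H2 : t < 2 * (s * (c - a) + t * (d - b))) : False := by
  nlinarith

lemma z_12 (ht : 0 < t) (hc : 0 < c) (hac : a < c) (hβ : s * c < t * (1 - s - d))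
    (H1 : c * (1 - s) + t * (1 - s - d) < 2 * ((1 - s - d) * a + c * (b + s)))
    (H2 : t < 2 * (s * (c - a) + t * (d - b))) : False := by
  have h1 := mul_lt_mul_of_pos_left H1 ht
  have h2 := mul_lt_mul_of_pos_left H2 hc
  have h3 := mul_pos (show (0:ℝ) < t + 2 * c - 2 * a by linarith) (sub_pos.2 hβ)
  nlinarith

lemma z_21 (ht : 0 < t) (hc : 0 < c) (ha : 0 ≤ a) (hβ : s * c < t * (1 - s - d))
    (H1 : t < 2 * (s * a + t * (b + s)))
    (H2 : c * (1 - s) + t * (1 - s - d) < 2 * ((1 - s - d) * (c - a) + c * (d - b))) : False := by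
  have h1 := mul_lt_mul_of_pos_left H1 hc
  have h2 := mul_lt_mul_of_pos_left H2 ht
  have h3 := mul_pos (show (0:ℝ) < t + 2 * a by linarith) (sub_pos.2 hβ)
  nlinarith

end PI3

section PI5
variable {t s a b c d e f : ℝ}

lemma pi5_j1 (hβ : s * c < t * (1 - s - d))
    (H2 : c * (1 - s) + t * (1 - s - d) < 2 * ((1 - s - d) * (c - a) + c * (d - b))) :
    2 * ((1 - s - d) * a + c * (b + s)) < c := by
  nlinarith

lemma pi5_j2 (ht : 0 < t) (hc : 0 < c) (hac : a < c) (hβ : s * c < t * (1 - s - d))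
    (H2 : t < 2 * (s * (c - a) + t * (d - b))) :
    2 * ((1 - s - d) * a + c * (b + s)) < c := by
  have h1 := mul_lt_mul_of_pos_left H2 hc
  have h3 := mul_pos (show (0:ℝ) < c - a by linarith) (sub_pos.2 hβ)
  have h4 : t * (2 * ((1 - s - d) * a + c * (b + s))) < t * c := by nlinarith
  exact lt_of_mul_lt_mul_left h4 ht.le

/-- `F ≥ 0` -/
lemma pi5_F (h : HW t s c d) (LB : 1 - s < 2 * t) (hβ : s * c < t * (1 - s - d)) :
    0 ≤ t * c * d - (1 - t - c) * (c - (1 - t) * (1 - s - d)) := by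
  obtain ⟨s0, st, st1, c1, c2, d1, d2⟩ := h
  have ht : (0:ℝ) < t := by linarith
  have hc : (0:ℝ) < c := by linarith
  rcases le_or_gt 0 ((1 - t - c) * (1 - t) - t * c) with hcase | hcase
  · have h1 := mul_le_mul_of_nonneg_left hβ.le hcase
    have h2 : 0 ≤ c * ((t - s) * (t - (1 - t - c))) :=
      mul_nonneg hc.le (mul_nonneg (by linarith) (by linarith))
    have h3 : 0 ≤ t * (t * c * d - (1 - t - c) * (c - (1 - t) * (1 - s - d))) := by nlinarith
    exact nonneg_of_mul_nonneg_right h3 ht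
  · -- replace `1 - s - d` by `(1 - s) / 2`
    have h1 : 0 ≤ (t * c - (1 - t - c) * (1 - t)) * (2 * d - (1 - s)) :=
      mul_nonneg (by linarith) (by linarith)
    -- `f(γ) ≥ 0`
    have hf : 0 ≤ t * c * (1 - s) - 2 * (1 - t - c) * c + (1 - s) * (1 - t - c) * (1 - t) := by
      have hg : 1 - t - c < t * (1 - t) := by nlinarith
      rcases le_or_gt t (1/2) with ht2 | ht2
      · set x := t * (1 - t) - (1 - t - c) with hx
        have hx0 : 0 < x := by linarith
        have k1 : 0 ≤ t * (1 - t) ^ 2 * (t - s) :=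
          mul_nonneg (mul_nonneg ht.le (sq_nonneg _)) (by linarith)
        have k2 : 0 ≤ x * ((1 - 2 * t) * (2 * (1 - t) - (1 - s))) :=
          mul_nonneg hx0.le (mul_nonneg (by linarith) (by linarith))
        have k3 : 0 ≤ x ^ 2 := sq_nonneg _
        have hcx : c = 1 - t - t * (1 - t) + x := by rw [hx]; ring
        rw [hcx]
        nlinarith
      · set x := (1 - t) / 2 - (1 - t - c) with hx
        have hx0 : 0 < x := by rw [hx]; linarith
        have k1 : 0 ≤ (1 - t) * (t - s) := mul_nonneg (by linarith) (by linarith)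
        have k2 : 0 ≤ x * ((1 - s) * (t - (1 - t))) :=
          mul_nonneg hx0.le (mul_nonneg (by linarith) (by linarith))
        have k3 : 0 ≤ x ^ 2 := sq_nonneg _
        have hcx : c = (1 - t) / 2 + x := by rw [hx]; ring
        rw [hcx]
        nlinarith
    nlinarith

lemma pi5 (h : HW t s c d) (hz : HZ t s a b) (LB : 1 - s < 2 * t)
    (hβ : s * c < t * (1 - s - d))
    (H0 : d < 2 * (a * d + (1 - t - c) * (b + s)))
    (H1 : 2 * ((1 - s - d) * a + c * (b + s)) < c) : False := by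
  have hF := pi5_F h LB hβ
  have hx := h.x0
  obtain ⟨s0, st, st1, c1, c2, d1, d2⟩ := h
  obtain ⟨a0, a1, b0, b1⟩ := hz
  have hc : (0:ℝ) < c := by linarith
  have h1 := mul_lt_mul_of_pos_left H0 hc
  have h2 := mul_le_mul_of_nonneg_left H1.le (show (0:ℝ) ≤ 1 - t - c by linarith)
  have h3 := mul_pos hx (sub_pos.2 a1)
  nlinarith

end PI5

section PI4
variable {t s a b c d e f : ℝ}

/-- `wz0` and the five possible positions of `v - z`, mode 1 -/
lemma pi4_flat (h : HW t s c d) (hz : HZ t s a b) (hv : HV1 t s e f)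
    (Hw : d < 2 * ((c - a) * d + (1 - t - c) * (d - b)))
    (H : 1 - s < 2 * ((1 - s) * (a + e) + t * (f - b))) : False := by
  obtain ⟨s0, st, st1, c1, c2, d1, d2⟩ := h
  obtain ⟨e0, e1, f0, f1⟩ := hv
  obtain ⟨a0, a1, b0, b1⟩ := hz
  have hd : (0:ℝ) < d := by linarith
  have hm : (0:ℝ) < 1 - s := by linarith
  have ht : (0:ℝ) < t := by linarith
  have h1 := mul_lt_mul_of_pos_left H hd
  have h2 := mul_lt_mul_of_pos_left Hw hm
  have h3 := mul_pos (mul_pos hd hm) (show (0:ℝ) < t - 2 * e by linarith)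
  have h4 := mul_pos (mul_pos hd ht) (show (0:ℝ) < 1 - s - 2 * f by linarith)
  have h5 := mul_nonneg (mul_nonneg (show (0:ℝ) ≤ 1 - t - c by linarith) hm.le) b0
  have h6 := mul_nonneg (mul_nonneg hd.le ht.le) b0
  nlinarith

lemma pi4_a (h : HW t s c d) (hz : HZ t s a b)
    (Hw : d < 2 * ((c - a) * d + (1 - t - c) * (d - b))) : 2 * a < 1 - 2 * t := by
  obtain ⟨s0, st, st1, c1, c2, d1, d2⟩ := h
  obtain ⟨a0, a1, b0, b1⟩ := hz
  have hd : (0:ℝ) < d := by linarith
  have h5 := mul_nonneg (show (0:ℝ) ≤ 1 - t - c by linarith) b0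
  have h6 : d * (2 * a) < d * (1 - 2 * t) := by nlinarith
  exact lt_of_mul_lt_mul_left h6 hd.le

lemma pi4_steep (h : HW t s c d) (hz : HZ t s a b) (hv : HV1 t s e f)
    (Hw : d < 2 * ((c - a) * d + (1 - t - c) * (d - b)))
    (H : 1 - t < 2 * (s * (a + e) + (1 - t) * (f - b))) : False := by
  have ha := pi4_a h hz Hw
  obtain ⟨s0, st, st1, c1, c2, d1, d2⟩ := h
  obtain ⟨e0, e1, f0, f1⟩ := hv
  obtain ⟨a0, a1, b0, b1⟩ := hz
  have h1 := mul_nonneg s0 (show (0:ℝ) ≤ 1 - 2 * t - 2 * a by linarith)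
  have h2 := mul_nonneg s0 (show (0:ℝ) ≤ t - 2 * e by linarith)
  have h3 := mul_nonneg (show (0:ℝ) ≤ 1 - t by linarith) (show (0:ℝ) ≤ 1 - s - 2 * f by linarith)
  have h4 := mul_nonneg (show (0:ℝ) ≤ 1 - t by linarith) b0
  nlinarith

lemma pi4_N0 (h : HW t s c d) (hz : HZ t s a b) (hv : HV1 t s e f)
    (Hw : d < 2 * ((c - a) * d + (1 - t - c) * (d - b)))
    (H : d < 2 * ((a + e) * d + (1 - t - c) * (b - f))) : False := by
  obtain ⟨s0, st, st1, c1, c2, d1, d2⟩ := h
  obtain ⟨e0, e1, f0, f1⟩ := hv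
  obtain ⟨a0, a1, b0, b1⟩ := hz
  have hd : (0:ℝ) < d := by linarith
  have h1 := mul_nonneg (show (0:ℝ) ≤ 1 - t - c by linarith) f0
  have h2 := mul_pos hd (show (0:ℝ) < t - 2 * e by linarith)
  have h3 := mul_pos hd (show (0:ℝ) < t by linarith)
  nlinarith

lemma pi4_N1 (h : HW t s c d) (hz : HZ t s a b) (hv : HV1 t s e f)
    (V1 : c * (1 - s) + t * (1 - s - d) < 2 * ((1 - s - d) * (t - e) + c * f))
    (H : c * (1 - s) + t * (1 - s - d) < 2 * ((1 - s - d) * (a + e) + c * (b - f))) : False := by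
  obtain ⟨s0, st, st1, c1, c2, d1, d2⟩ := h
  obtain ⟨e0, e1, f0, f1⟩ := hv
  obtain ⟨a0, a1, b0, b1⟩ := hz
  have h1 : 0 < c * (1 - s - 2 * b) := mul_pos (by linarith) (by linarith)
  have h2 := mul_nonneg (show (0:ℝ) ≤ 1 - s - d by linarith) (show (0:ℝ) ≤ 1 - t - 2 * a by linarith)
  have h3 : 0 < (2 * c - (1 - t)) * (1 - s) := mul_pos (by linarith) (by linarith)
  have h4 : 0 < (1 - t) * (1 - s - 2 * (1 - s - d)) := mul_pos (by linarith) (by linarith)
  nlinarith

lemma pi4_N2 (h : HW t s c d) (hz : HZ t s a b) (hv : HV1 t s e f)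
    (hβ : s * c < t * (1 - s - d))
    (Hw : d < 2 * ((c - a) * d + (1 - t - c) * (d - b)))
    (V1 : c * (1 - s) + t * (1 - s - d) < 2 * ((1 - s - d) * (t - e) + c * f))
    (H : t < 2 * (s * (a + e) + t * (b - f))) : False := by
  have ha := pi4_a h hz Hw
  obtain ⟨s0, st, st1, c1, c2, d1, d2⟩ := h
  obtain ⟨e0, e1, f0, f1⟩ := hv
  obtain ⟨a0, a1, b0, b1⟩ := hz
  have hc : (0:ℝ) < c := by linarith
  have ht : (0:ℝ) < t := by linarith
  have h1 := mul_lt_mul_of_pos_left H hc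
  have h2 := mul_lt_mul_of_pos_left V1 ht
  have h3 := mul_pos e0 (sub_pos.2 hβ)
  have h4 := mul_pos (mul_pos ht hc) (show (0:ℝ) < 1 - s - 2 * b by linarith)
  have h5 := mul_nonneg (mul_nonneg hc.le s0) (show (0:ℝ) ≤ 1 - 2 * t - 2 * a by linarith)
  -- now `t c < c s (1 - 2t) + t² ψ`
  have k0 : t * c < c * s * (1 - 2 * t) + t ^ 2 * (1 - s - d) := by nlinarith
  -- `ψ < (1-s)/2`, `c > (1-t)/2`
  have k1 := mul_nonneg (sq_nonneg t) (show (0:ℝ) ≤ 2 * d - (1 - s) by linarith)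
  have k2 : 0 ≤ (2 * c - (1 - t)) * (t - s + 2 * s * t) := by
    apply mul_nonneg (by linarith)
    have := mul_nonneg s0 ht.le
    linarith
  -- linear interpolation in `s` between `0` and `t`
  have k3 : 0 ≤ (t - s) * (t * (1 - 2 * t)) := mul_nonneg (by linarith) (mul_nonneg ht.le (by linarith))
  have k4 : 0 ≤ s * (t ^ 2 * (1 - t)) := mul_nonneg s0 (mul_nonneg (sq_nonneg _) (by linarith))
  have k5 : 0 ≤ t * (t - s + 3 * s * t - 2 * t ^ 2 - s * t ^ 2) := by nlinarith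
  have k6 : 0 ≤ t - s + 3 * s * t - 2 * t ^ 2 - s * t ^ 2 := nonneg_of_mul_nonneg_right k5 ht
  nlinarith

end PI4

end Pool.Agent.K4H60.Seven
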