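import Pool.Agent.K4H60.Seven.Poly2

set_option autoImplicit false

namespace Pool.Agent.K4H60.Seven

section mode0
variable {t s a b c d e f : ℝ}

/-- PI-6 -/
lemma pi6 (h : HW t s c d) (hv : HV0 t s e f)
    (Tv0 : d < 2 * (e * d + (1 - t - c) * (1 - s - f)))
    (Tw0 : f < 2 * (c * f + (t - e) * (1 - s - d))) : False := by
  obtain ⟨s0, st, st1, c1, c2, d1, d2⟩ := h
  obtain ⟨e1, e2, f1, f2⟩ := hv
  have hd : (0:ℝ) < d := by linarith
  have hf : (0:ℝ) < f := by linarith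
  have h1 := mul_nonneg (show (0:ℝ) ≤ 1 - t - c by linarith) (show (0:ℝ) ≤ d - (1 - s - f) by linarith)
  have h2 := mul_nonneg (show (0:ℝ) ≤ t - e by linarith) (show (0:ℝ) ≤ f - (1 - s - d) by linarith)
  have h3 : d * 1 < d * (2 * (e + (1 - t - c))) := by nlinarith
  have h4 : f * 1 < f * (2 * (c + (t - e))) := by nlinarith
  have h5 := lt_of_mul_lt_mul_left h3 hd.le
  have h6 := lt_of_mul_lt_mul_left h4 hf.le
  linarith

/-- mode 0: `v - L` is not in the flat cone -/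
lemma slope0_Lv (h : HW t s c d) (hv : HV0 t s e f)
    (H : 0 ≤ (t - e) * d - f * (c + t)) : False := by
  obtain ⟨s0, st, st1, c1, c2, d1, d2⟩ := h
  obtain ⟨e1, e2, f1, f2⟩ := hv
  have h1 : 0 ≤ (2 * f - d) * t := mul_nonneg (by linarith) (by linarith)
  have h2 : 0 < (2 * e - t) * d := mul_pos (by linarith) (by linarith)
  have h3 : 0 < f * c := mul_pos (by linarith) (by linarith)
  nlinarith

/-- mode 0: `v - L` is not in the cone of `(c + t, d)`, `(t, 1 - s)` -/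
lemma slope0_Lv' (h : HW t s c d) (hv : HV0 t s e f)
    (H : 0 ≤ (t - e) * (1 - s) - f * t) : False := by
  obtain ⟨s0, st, st1, c1, c2, d1, d2⟩ := h
  obtain ⟨e1, e2, f1, f2⟩ := hv
  have h1 : 0 < t * (2 * f - (1 - s)) := mul_pos (by linarith) (by linarith)
  have h2 : 0 < (1 - s) * (2 * e - t) := mul_pos (by linarith) (by linarith)
  nlinarith

lemma E_of_Lv2 (hα : t * (1 - s - d) ≤ s * c)
    (H : c * s + t * d + t * s < 2 * (s * (t - e) + t * f)) :
    2 * t * (1 - s - f) + 2 * s * e < t := by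
  nlinarith

lemma E_of_Lv1 (ht : 0 < t) (hc : 0 < c) (he : e ≤ t) (hα : t * (1 - s - d) ≤ s * c)
    (H : c < 2 * (c * f + (1 - s - d) * (t - e))) :
    2 * t * (1 - s - f) + 2 * s * e < t := by
  have h1 := mul_lt_mul_of_pos_left H ht
  have h2 := mul_nonneg (show (0:ℝ) ≤ t - e by linarith) (sub_nonneg.2 hα)
  have h3 : c * (2 * t * (1 - s - f) + 2 * s * e) < c * t := by nlinarith
  exact lt_of_mul_lt_mul_left h3 hc.le

/-- PI-8: sides `α`, `β̄`.  Written with `φ` and `γ`. -/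
lemma pi8 {t s g d e φ : ℝ} (s0 : 0 ≤ s) (st : s < t) (t1 : t < 1)
    (g0 : 0 ≤ g) (g1 : 2 * g < 1 - t) (d1 : 1 - s < 2 * d) (e1 : t < 2 * e) (e2 : e ≤ t)
    (hα : t * (1 - s - d) ≤ s * (1 - t - g)) (hβ : s * e ≤ (1 - t) * φ)
    (Tv0 : d < 2 * (e * d + g * φ))
    (Tw1 : e * (1 - s) + (1 - t) * φ < 2 * (φ * (1 - t - g) + e * (1 - s - d)))
    (E : 2 * t * φ + 2 * s * e < t) : False := by
  have ht : (0:ℝ) < t := by linarith
  have hδ : (0:ℝ) < t - s := by linarith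
  have hl : (0:ℝ) < 1 - t := by linarith
  have hdg : (0:ℝ) < d - g := by linarith
  set y := t * d - s * g with hy
  have hy0 : t - s ≤ y := by nlinarith
  have hyp : 0 < y := by linarith
  have A : t * (d - g) < 2 * e * y := by
    have h1 := mul_lt_mul_of_pos_left Tv0 ht
    have h2 := mul_le_mul_of_nonneg_left E.le g0
    nlinarith
  have B : 2 * e * (2 * y - (t - s)) < t * (1 - t - 2 * g) := by
    have h1 := mul_lt_mul_of_pos_left Tw1 ht
    have h2 := mul_le_mul_of_nonneg_left E.le (show (0:ℝ) ≤ 1 - t - 2 * g by linarith)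
    nlinarith
  -- (★1)
  have S1 : (d - g) * (2 * y - (t - s)) < y * (1 - t - 2 * g) := by
    have h1 := mul_lt_mul_of_pos_left A (show (0:ℝ) < 2 * y - (t - s) by linarith)
    have h2 := mul_lt_mul_of_pos_left B hyp
    have h3 : t * ((d - g) * (2 * y - (t - s))) < t * (y * (1 - t - 2 * g)) := by nlinarith
    exact lt_of_mul_lt_mul_left h3 ht.le
  have S2 : 2 * d - (1 - t) < d - g := by
    have h1 := mul_le_mul_of_nonneg_left hy0 (show (0:ℝ) ≤ 2 * d - (1 - t) by linarith)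
    have h2 : (t - s) * (2 * d - (1 - t)) < (t - s) * (d - g) := by nlinarith
    exact lt_of_mul_lt_mul_left h2 hδ.le
  -- `2 s e ≤ (1 - t) t`
  have C0 : 2 * (s * e) ≤ (1 - t) * t := by
    have h1 := mul_le_mul_of_nonneg_left hβ ht.le
    have h2 := mul_le_mul_of_nonneg_left E.le hl.le
    nlinarith
  have C1 : s * (d - g) ≤ (1 - t) * y := by
    have h1 := mul_le_mul_of_nonneg_right C0 hyp.le
    have h2 := mul_le_mul_of_nonneg_left A.le s0
    have h3 : t * (s * (d - g)) ≤ t * ((1 - t) * y) := by nlinarith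
    exact le_of_mul_le_mul_left h3 ht
  have D1 : t ≤ d := by
    have h1 := mul_le_mul_of_nonneg_left hy0 ht.le
    have h2 : (t - s) * t ≤ (t - s) * d := by nlinarith
    exact le_of_mul_le_mul_left h2 hδ
  have G1 : 0 < 1 - 2 * t - g := by linarith
  have A3 : d - g < 2 * y := by
    have h1 := mul_le_mul_of_nonneg_right e2 hyp.le
    have h2 : t * (d - g) < t * (2 * y) := by nlinarith
    exact lt_of_mul_lt_mul_left h2 ht.le
  have k1 := mul_le_mul_of_nonneg_left hy0 (show (0:ℝ) ≤ 1 - 2 * t by linarith)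
  have k2 := mul_lt_mul_of_pos_left A3 ht
  have k3 := mul_pos hδ G1
  nlinarith

/-- K1 from `wz0` and `Bz2` -/
lemma K1_of_2 (h : HW t s c d) (hz : HZ t s a b)
    (Hw : d < 2 * ((c - a) * d + (1 - t - c) * (d - b)))
    (Hz : t < 2 * (s * a + t * (b + s))) :
    (1 - t - c) * (1 - 2 * s) < d * (1 - 2 * t) := by
  have hy := h.y0
  obtain ⟨s0, st, st1, c1, c2, d1, d2⟩ := h
  obtain ⟨a0, a1, b0, b1⟩ := hz
  have ht : (0:ℝ) < t := by linarith
  have h1 := mul_lt_mul_of_pos_left Hw ht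
  have h2 := mul_le_mul_of_nonneg_left Hz.le (show (0:ℝ) ≤ 1 - t - c by linarith)
  have h3 := mul_nonneg a0 hy.le
  have h4 : t * ((1 - t - c) * (1 - 2 * s)) < t * (d * (1 - 2 * t)) := by nlinarith
  exact lt_of_mul_lt_mul_left h4 ht.le

/-- K1 from `wz0` and `Bz1` -/
lemma K1_of_1 (h : HW t s c d) (hz : HZ t s a b) (hβ : s * c < t * (1 - s - d))
    (Hw : d < 2 * ((c - a) * d + (1 - t - c) * (d - b)))
    (Hz : c * (1 - s) + t * (1 - s - d) < 2 * ((1 - s - d) * a + c * (b + s))) :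
    (1 - t - c) * (1 - 2 * s) < d * (1 - 2 * t) := by
  have hx := h.x0
  obtain ⟨s0, st, st1, c1, c2, d1, d2⟩ := h
  obtain ⟨a0, a1, b0, b1⟩ := hz
  have hc : (0:ℝ) < c := by linarith
  have h1 := mul_lt_mul_of_pos_left Hw hc
  have h2 := mul_le_mul_of_nonneg_left Hz.le (show (0:ℝ) ≤ 1 - t - c by linarith)
  have h3 := mul_nonneg a0 hx.le
  have h5 := mul_nonneg (show (0:ℝ) ≤ 1 - t - c by linarith) (sub_pos.2 hβ).le
  have h4 : c * ((1 - t - c) * (1 - 2 * s)) < c * (d * (1 - 2 * t)) := by nlinarith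
  exact lt_of_mul_lt_mul_left h4 hc.le

/-- (I2) -/
lemma I2 (h : HW t s c d) (hv : HV0 t s e f)
    (K1 : (1 - t - c) * (1 - 2 * s) < d * (1 - 2 * t))
    (Tv0 : d < 2 * (e * d + (1 - t - c) * (1 - s - f)))
    (Lv2 : t < 2 * (s * (t - e) + t * f)) : False := by
  have hy := h.y0
  obtain ⟨s0, st, st1, c1, c2, d1, d2⟩ := h
  obtain ⟨e1, e2, f1, f2⟩ := hv
  have ht : (0:ℝ) < t := by linarith
  have h1 := mul_lt_mul_of_pos_left Tv0 ht
  have h2 := mul_le_mul_of_nonneg_left Lv2.le (show (0:ℝ) ≤ 1 - t - c by linarith)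
  have h3 := mul_nonneg (show (0:ℝ) ≤ t - e by linarith) hy.le
  have h4 : t * (d * (1 - 2 * t)) < t * ((1 - t - c) * (1 - 2 * s)) := by nlinarith
  have := lt_of_mul_lt_mul_left h4 ht.le
  linarith

/-- consequence of `K1` -/
lemma K1h (h : HW t s c d) (ht2 : 0 < 1 - 2 * t) (hβ : s * c < t * (1 - s - d))
    (K1 : (1 - t - c) * (1 - 2 * s) < d * (1 - 2 * t)) :
    (t * (1 - s - d) - s * c) * (1 - 2 * t) < (t - s) * (c - t) ∧ 0 < c - t := by
  obtain ⟨s0, st, st1, c1, c2, d1, d2⟩ := h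
  have ht : (0:ℝ) < t := by linarith
  have h1 := mul_lt_mul_of_pos_left K1 ht
  have h2 : (t * (1 - s - d) - s * c) * (1 - 2 * t) < (t - s) * (c - t) := by nlinarith
  have h3 : 0 < (t - s) * (c - t) := lt_trans (mul_pos (sub_pos.2 hβ) ht2) h2
  exact ⟨h2, (pos_iff_pos_of_mul_pos h3).1 (by linarith)⟩

/-- the lower bound for `Φ` -/
lemma Wlow (h : HW t s c d) (hv : HV0 t s e f)
    (Tv1 : c * (1 - s) + t * (1 - s - d) < 2 * ((1 - s - d) * e + c * (1 - s - f))) :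
    c * (1 - t) * (1 - s) - 2 * c * s * t - (1 - t) * t * (1 - s - d)
      < 2 * c * ((1 - t) * (1 - s - f) - s * e) := by
  obtain ⟨s0, st, st1, c1, c2, d1, d2⟩ := h
  obtain ⟨e1, e2, f1, f2⟩ := hv
  have hl : (0:ℝ) < 1 - t := by linarith
  have hc : (0:ℝ) < c := by linarith
  have h1 := mul_lt_mul_of_pos_left Tv1 hl
  have h2 : 0 ≤ (t - e) * ((1 - t) * (1 - s - d) + c * s) := by
    apply mul_nonneg (by linarith)
    have := mul_nonneg hl.le (show (0:ℝ) ≤ 1 - s - d by linarith)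
    have := mul_nonneg hc.le s0
    linarith
  nlinarith

/-- the lower bound for `φ / e`, in the form used with `vz1` -/
lemma Rlow (h : HW t s c d) (hz : HZ t s a b) (hv : HV0 t s e f)
    (Tv1 : c * (1 - s) + t * (1 - s - d) < 2 * ((1 - s - d) * e + c * (1 - s - f)))
    (Hvz : e * (1 - s) + (1 - t) * (1 - s - f) < 2 * ((1 - s - f) * (a + e) + e * (f - b))) :
    (c * (1 - s) - t * (1 - s - d)) * (1 - t - 2 * a) < 2 * c * t * (1 - s - 2 * b) := by
  obtain ⟨s0, st, st1, c1, c2, d1, d2⟩ := h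
  obtain ⟨e1, e2, f1, f2⟩ := hv
  obtain ⟨a0, a1, b0, b1⟩ := hz
  have ht : (0:ℝ) < t := by linarith
  have he : (0:ℝ) < e := by linarith
  have hc : (0:ℝ) < c := by linarith
  have hla : 0 < 1 - t - 2 * a := by linarith
  have hS : 0 ≤ c * (1 - s) + t * (1 - s - d) := by
    have := mul_nonneg hc.le (show (0:ℝ) ≤ 1 - s by linarith)
    have := mul_nonneg ht.le (show (0:ℝ) ≤ 1 - s - d by linarith)
    linarith
  -- `φ (1 - t - 2a) < e (1 - s - 2 b)`
  have H : (1 - s - f) * (1 - t - 2 * a) < e * (1 - s - 2 * b) := by nlinarith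
  have h1 := mul_lt_mul_of_pos_left H (mul_pos hc ht)
  have h2 := mul_lt_mul_of_pos_left (mul_lt_mul_of_pos_right Tv1 hla) ht
  have h3 := mul_nonneg (mul_nonneg hS hla.le) (show (0:ℝ) ≤ t - e by linarith)
  have h4 : e * ((c * (1 - s) - t * (1 - s - d)) * (1 - t - 2 * a))
      < e * (2 * c * t * (1 - s - 2 * b)) := by nlinarith
  exact lt_of_mul_lt_mul_left h4 he.le

/-- (I3), `Bz2`, `vz2` -/
lemma I3_22 (h : HW t s c d) (hz : HZ t s a b) (hv : HV0 t s e f)
    (hβ : s * c < t * (1 - s - d))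
    (Hw : d < 2 * ((c - a) * d + (1 - t - c) * (d - b)))
    (Rw2 : 1 - t < 2 * (s * (1 - t - c) + (1 - t) * d))
    (Tv1 : c * (1 - s) + t * (1 - s - d) < 2 * ((1 - s - d) * e + c * (1 - s - f)))
    (Hz : t < 2 * (s * a + t * (b + s)))
    (Hvz : 1 - t < 2 * (s * (a + e) + (1 - t) * (f - b))) : False := by
  have K1 := K1_of_2 h hz Hw Hz
  have W := Wlow h hv Tv1
  have ha := pi4_a h hz Hw
  have ht2 : 0 < 1 - 2 * t := by have := hz.a0; linarith
  obtain ⟨hK, hh⟩ := K1h h ht2 hβ K1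
  have hy := h.y0
  obtain ⟨s0, st, st1, c1, c2, d1, d2⟩ := h
  obtain ⟨e1, e2, f1, f2⟩ := hv
  obtain ⟨a0, a1, b0, b1⟩ := hz
  have ht : (0:ℝ) < t := by linarith
  have hc : (0:ℝ) < c := by linarith
  have hl : (0:ℝ) < 1 - t := by linarith
  have hp : 0 ≤ (1 - t - c) * s + (1 - t) * d := by
    have := mul_nonneg (show (0:ℝ) ≤ 1 - t - c by linarith) s0
    have := mul_pos hl (show (0:ℝ) < d by linarith)
    linarith
  obtain ⟨Φ, hΦ⟩ : ∃ Φ, Φ = (1 - t) * (1 - s - f) - s * e := ⟨_, rfl⟩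
  rw [← hΦ] at W
  have Hvz' : 2 * ((1 - t) * b - s * a) < (1 - t) * (1 - 2 * s) - 2 * Φ := by
    rw [hΦ]; nlinarith
  -- X22
  have X : 2 * Φ * (t * d - s * (1 - t - c))
      ≤ s * (d * (1 - 2 * t) - (1 - t - c) * (1 - 2 * s)) := by
    have h1 := mul_le_mul_of_nonneg_left Hw.le s0
    have h2 := mul_le_mul_of_nonneg_left Hz.le hp
    have h3 := mul_lt_mul_of_pos_left Hvz' hy
    nlinarith
  have P1 := mul_lt_mul_of_pos_left W hy
  have P2 := mul_le_mul_of_nonneg_left X hc.le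
  have Q : (t * d - s * (1 - t - c)) *
        (c * (1 - t) * (1 - s) - 2 * c * s * t - (1 - t) * t * (1 - s - d))
      < c * (s * (d * (1 - 2 * t) - (1 - t - c) * (1 - 2 * s))) := by nlinarith
  have Q' := mul_lt_mul_of_pos_left Q ht
  clear P1 P2 W X Hvz' Hvz Hz Hw Tv1
  -- the nonnegative combination
  have hη0 : 0 < t * (1 - s - d) - s * c := sub_pos.2 hβ
  have k1 := mul_nonneg (mul_nonneg hc.le (show (0:ℝ) ≤ t - s by linarith))
    (mul_nonneg ht.le (sub_nonneg.2 Rw2.le))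
  have k2 := mul_nonneg (mul_nonneg hc.le s0) (sub_nonneg.2 hK.le)
  have k3 := mul_nonneg (mul_nonneg hη0.le ht.le) (mul_nonneg hh.le (show (0:ℝ) ≤ 1 - t by linarith))
  have k4 := mul_nonneg (mul_nonneg hη0.le ht.le) (mul_nonneg s0 hl.le)
  have k5 := mul_nonneg (mul_nonneg hl.le ht.le) (sq_nonneg (t * (1 - s - d) - s * c))
  nlinarith

/-- (I3), `Bz2`, `vz1` -/
lemma I3_21 (h : HW t s c d) (hz : HZ t s a b) (hv : HV0 t s e f)
    (hβ : s * c < t * (1 - s - d))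
    (Hw : d < 2 * ((c - a) * d + (1 - t - c) * (d - b)))
    (Rw2 : 1 - t < 2 * (s * (1 - t - c) + (1 - t) * d))
    (Tv1 : c * (1 - s) + t * (1 - s - d) < 2 * ((1 - s - d) * e + c * (1 - s - f)))
    (Hz : t < 2 * (s * a + t * (b + s)))
    (Hvz : e * (1 - s) + (1 - t) * (1 - s - f) < 2 * ((1 - s - f) * (a + e) + e * (f - b))) :
    False := by
  have K1 := K1_of_2 h hz Hw Hz
  have R := Rlow h hz hv Tv1 Hvz
  have ha := pi4_a h hz Hw
  have ht2 : 0 < 1 - 2 * t := by have := hz.a0; linarith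
  obtain ⟨hK, hh⟩ := K1h h ht2 hβ K1
  have hy := h.y0
  obtain ⟨s0, st, st1, c1, c2, d1, d2⟩ := h
  obtain ⟨e1, e2, f1, f2⟩ := hv
  obtain ⟨a0, a1, b0, b1⟩ := hz
  have ht : (0:ℝ) < t := by linarith
  have hc : (0:ℝ) < c := by linarith
  have hl : (0:ℝ) < 1 - t := by linarith
  have hη0 : 0 < t * (1 - s - d) - s * c := sub_pos.2 hβ
  obtain ⟨y, hyd⟩ : ∃ y, y = t * d - s * (1 - t - c) := ⟨_, rfl⟩
  obtain ⟨η, hη⟩ : ∃ η, η = t * (1 - s - d) - s * c := ⟨_, rfl⟩
  rw [← hyd] at hy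
  rw [← hη] at hη0
  have hyη : y + η = t - s := by rw [hyd, hη]; ring
  -- Δ = c - η
  have hD : 0 < c - η := by linarith
  have hDe : c - η = c * (1 + s) - t * (1 - s - d) := by rw [hη]; ring
  -- elimination
  have Q : (c - η) * (t * y + (1 - t - c) * (t - s)) < 2 * s * c * y := by
    have m1 := mul_lt_mul_of_pos_left Hw (mul_pos ht hD)
    have m2 : ((1 - t - c) * (c - η) + 2 * c * y) * t
        ≤ ((1 - t - c) * (c - η) + 2 * c * y) * (2 * (s * a + t * (b + s))) := by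
      apply mul_le_mul_of_nonneg_left Hz.le
      have := mul_nonneg (show (0:ℝ) ≤ 1 - t - c by linarith) hD.le
      have := mul_nonneg hc.le hy.le
      linarith
    have m3 := mul_lt_mul_of_pos_left R hy
    rw [hDe] at m1 m2 ⊢
    rw [hyd] at m2 m3 ⊢
    nlinarith
  have hA : 2 * s * c ≤ (1 - t) * (t - 2 * η) := by
    have := mul_le_mul_of_nonneg_left Rw2.le ht.le
    rw [hη]; nlinarith
  have hK' : η * (1 - 2 * t) < (t - s) * (c - t) := by rw [hη]; exact hK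
  have hδ : t - s = y + η := hyη.symm
  clear hK hDe R K1 Hvz Hz Hw Tv1 hη hyd
  have k1 := mul_le_mul_of_nonneg_right hA hy.le
  have k2 := mul_nonneg (mul_nonneg (show (0:ℝ) ≤ 1 - t - c by linarith) hh.le) hy.le
  have k3 := mul_nonneg (mul_nonneg hη0.le (show (0:ℝ) ≤ 1 - t - c by linarith))
    (show (0:ℝ) ≤ c - (t - s) by linarith)
  have k4 := mul_nonneg (mul_nonneg hη0.le hy.le) (show (0:ℝ) ≤ 2 * (1 - t) - t by linarith)
  have hs : s = t - y - η := by linarith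
  subst hs
  nlinarith

/-- (I3), `Bz1`, `vz2` -/
lemma I3_12 (h : HW t s c d) (hz : HZ t s a b) (hv : HV0 t s e f)
    (LB : 1 - s < 2 * t) (hβ : s * c < t * (1 - s - d))
    (Hw : d < 2 * ((c - a) * d + (1 - t - c) * (d - b)))
    (Rw2 : 1 - t < 2 * (s * (1 - t - c) + (1 - t) * d))
    (Tv1 : c * (1 - s) + t * (1 - s - d) < 2 * ((1 - s - d) * e + c * (1 - s - f)))
    (Hz : c * (1 - s) + t * (1 - s - d) < 2 * ((1 - s - d) * a + c * (b + s)))
    (Hvz : 1 - t < 2 * (s * (a + e) + (1 - t) * (f - b))) : False := by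
  have K1 := K1_of_1 h hz hβ Hw Hz
  have W := Wlow h hv Tv1
  have ha := pi4_a h hz Hw
  have ht2 : 0 < 1 - 2 * t := by have := hz.a0; linarith
  obtain ⟨hK, hh⟩ := K1h h ht2 hβ K1
  have hx := h.x0
  obtain ⟨s0, st, st1, c1, c2, d1, d2⟩ := h
  obtain ⟨e1, e2, f1, f2⟩ := hv
  obtain ⟨a0, a1, b0, b1⟩ := hz
  have ht : (0:ℝ) < t := by linarith
  have hc : (0:ℝ) < c := by linarith
  have hl : (0:ℝ) < 1 - t := by linarith
  have hη0 : 0 < t * (1 - s - d) - s * c := sub_pos.2 hβ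
  have hψ : 0 ≤ 1 - s - d := by linarith
  obtain ⟨Φ, hΦ⟩ : ∃ Φ, Φ = (1 - t) * (1 - s - f) - s * e := ⟨_, rfl⟩
  rw [← hΦ] at W
  have Hvz' : 2 * ((1 - t) * b - s * a) < (1 - t) * (1 - 2 * s) - 2 * Φ := by
    rw [hΦ]; nlinarith
  obtain ⟨η, hη⟩ : ∃ η, η = t * (1 - s - d) - s * c := ⟨_, rfl⟩
  obtain ⟨V, hV⟩ : ∃ V, V = (1 - t) * (1 - s - d) + s * c := ⟨_, rfl⟩
  have hVη : 1 - s - d = V + η := by rw [hV, hη]; ring
  have hsc : s * c = t * V - (1 - t) * η := by rw [hV, hη]; ring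
  rw [← hη] at hη0 hK
  have hV0 : 0 ≤ V := by
    rw [hV]
    have := mul_nonneg hl.le hψ
    have := mul_nonneg s0 hc.le
    linarith
  have hd : d = 1 - s - (V + η) := by linarith
  have hX : c * d - (1 - t - c) * (1 - s - d) = c - V := by
    rw [hVη, hd]; linear_combination -hsc
  have hRw : 2 * V ≤ 1 - t := by
    rw [hV]; nlinarith
  rw [hX] at hx
  -- elimination
  have Q1 : 2 * (c - V) * Φ ≤ V * (d * (1 - 2 * t) - (1 - t - c) * (1 - 2 * s) + η) - (1 - t) * η := by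
    have m1 := mul_le_mul_of_nonneg_left Hw.le hV0
    have m2 := mul_le_mul_of_nonneg_left Hz.le (show (0:ℝ) ≤ 1 - t - V by linarith)
    have m3 := mul_lt_mul_of_pos_left Hvz' hx
    rw [hV] at m1 m2 m3 ⊢
    rw [hη]
    nlinarith
  have W' : (1 - t) * c - 2 * t * V + (1 - t) * η < 2 * c * Φ := by
    have e : c * (1 - t) * (1 - s) - 2 * c * s * t - (1 - t) * t * (1 - s - d)
        = (1 - t) * c - 2 * t * V + (1 - t) * η := by
      rw [hVη]; linear_combination (-(1 + t)) * hsc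
    rw [e] at W; exact W
  have Q1' : 2 * (c - V) * Φ * (c * t)
      ≤ V * ((t * (c - V) + (1 - t) * η) * (c - t) + c * η * (3 * t - 1)) - c * t * (1 - t) * η := by
    have m := mul_le_mul_of_nonneg_right Q1 (mul_pos hc ht).le
    have e : c * t * (d * (1 - 2 * t) - (1 - t - c) * (1 - 2 * s))
        = (t * (c - V) + (1 - t) * η) * (c - t) - c * η * (1 - 2 * t) := by
      rw [hd]; linear_combination (t * (1 - 2 * c)) * hsc
    have e2 : V * (c * t * (d * (1 - 2 * t) - (1 - t - c) * (1 - 2 * s)))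
        = V * ((t * (c - V) + (1 - t) * η) * (c - t) - c * η * (1 - 2 * t)) := by rw [e]
    nlinarith
  have m4 := mul_lt_mul_of_pos_left W' (mul_pos ht hx)
  have h3 : 0 ≤ 3 * t - 1 := by linarith
  have hD : 0 ≤ t * (c - V) + (1 - t) * η := by
    have := mul_pos ht hx
    have := mul_pos hl hη0
    linarith
  have hsc0 : 0 ≤ t * V - (1 - t) * η := by rw [← hsc]; exact mul_nonneg s0 hc.le
  clear hK Q1 W' W Hvz' Hvz Hz Hw Tv1 K1 hV hη hsc
  have j1 := mul_nonneg (mul_pos ht hx).le (mul_nonneg ht.le (sub_nonneg.2 hRw))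
  have j2 : 0 ≤ ((1 - t) - 2 * V) * ((t * (c - V) + (1 - t) * η) * (c - t) + c * η * (3 * t - 1)) := by
    apply mul_nonneg (by linarith)
    have := mul_nonneg hD hh.le
    have := mul_nonneg (mul_nonneg hc.le hη0.le) h3
    linarith
  have j3 := mul_nonneg (mul_nonneg hh.le hl.le) (mul_pos ht hx).le
  have j4 := mul_nonneg (mul_nonneg hl.le hD) hη0.le
  have j5 : 0 ≤ (1 - t) * η * (2 * (t * V - (1 - t) * η) + t * ((1 - t) - 2 * V)) := by
    apply mul_nonneg (mul_nonneg hl.le hη0.le)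
    have := mul_nonneg ht.le (sub_nonneg.2 hRw)
    linarith
  nlinarith

end mode0

end Pool.Agent.K4H60.Seven
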