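import Pool.Agent.K4H60.Seven.Poly3

set_option autoImplicit false

namespace Pool.Agent.K4H60.Seven

section mode0
variable {t s a b c d e f : ℝ}

/-- (I3), `Bz1`, `vz1` -/
lemma I3_11 (h : HW t s c d) (hz : HZ t s a b) (hv : HV0 t s e f)
    (hβ : s * c < t * (1 - s - d))
    (Hw : d < 2 * ((c - a) * d + (1 - t - c) * (d - b)))
    (Rw2 : 1 - t < 2 * (s * (1 - t - c) + (1 - t) * d))
    (Tv1 : c * (1 - s) + t * (1 - s - d) < 2 * ((1 - s - d) * e + c * (1 - s - f)))
    (Hz : c * (1 - s) + t * (1 - s - d) < 2 * ((1 - s - d) * a + c * (b + s)))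
    (Hvz : e * (1 - s) + (1 - t) * (1 - s - f) < 2 * ((1 - s - f) * (a + e) + e * (f - b))) :
    False := by
  have K1 := K1_of_1 h hz hβ Hw Hz
  have R := Rlow h hz hv Tv1 Hvz
  have ha := pi4_a h hz Hw
  have ht2 : 0 < 1 - 2 * t := by have := hz.a0; linarith
  obtain ⟨hK, hh⟩ := K1h h ht2 hβ K1
  have hx := h.x0
  obtain ⟨s0, st, st1, c1, c2, d1, d2⟩ := h
  obtain ⟨e1, e2, f1, f2⟩ := hv
  obtain ⟨a0, a1, b0, b1⟩ := hz
  have ht : (0:ℝ) < t := by linarith
  have hc : (0:ℝ) < c := by linarith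
  have hl : (0:ℝ) < 1 - t := by linarith
  have hη0 : 0 < t * (1 - s - d) - s * c := sub_pos.2 hβ
  have hψ : 0 ≤ 1 - s - d := by linarith
  have hd0 : 0 < d := by linarith
  have hS : 0 < c * (c * (1 - s) + t * (1 - s - d)) := by
    apply mul_pos hc
    have := mul_pos hc (show (0:ℝ) < 1 - s by linarith)
    have := mul_nonneg ht.le hψ
    linarith
  have hR0 : 0 ≤ c * (1 - s) - t * (1 - s - d) := by
    have := mul_nonneg hh.le (show (0:ℝ) ≤ 1 - s by linarith)
    have := mul_nonneg ht.le hd0.le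
    nlinarith
  -- elimination
  have Q : ((1 - t - c) * (c * (1 - s) - t * (1 - s - d)) + 2 * t * (c * d))
        * ((c * (1 - s) + t * (1 - s - d)) - 2 * (s * c))
      + (c * d - (1 - t - c) * (1 - s - d))
        * ((1 - t) * (c * (1 - s) - t * (1 - s - d)) - 2 * t * (c * (1 - s)))
      < (c * (1 - s) + t * (1 - s - d)) * (c * d) * (1 - 2 * t) := by
    have m1 := mul_lt_mul_of_pos_left Hw hS
    have m2 := mul_le_mul_of_nonneg_left Hz.le
      (show (0:ℝ) ≤ (1 - t - c) * (c * (1 - s) - t * (1 - s - d)) + 2 * t * (c * d) by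
        have := mul_nonneg (show (0:ℝ) ≤ 1 - t - c by linarith) hR0
        have := mul_pos ht (mul_pos hc hd0)
        linarith)
    have m3 := mul_lt_mul_of_pos_left R hx
    linarith
  obtain ⟨η, hη⟩ : ∃ η, η = t * (1 - s - d) - s * c := ⟨_, rfl⟩
  obtain ⟨V, hV⟩ : ∃ V, V = (1 - t) * (1 - s - d) + s * c := ⟨_, rfl⟩
  have hVη : 1 - s - d = V + η := by rw [hV, hη]; ring
  have hsc : s * c = t * V - (1 - t) * η := by rw [hV, hη]; ring
  rw [← hη] at hη0
  have hd : d = 1 - s - (V + η) := by linarith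
  have hX : c * d - (1 - t - c) * (1 - s - d) = c - V := by
    rw [hVη, hd]; linear_combination -hsc
  have hRw : 2 * V ≤ 1 - t := by
    rw [hV]; nlinarith
  have q1 : c * (1 - s) + t * (1 - s - d) = c + η := by
    rw [hVη]; linear_combination -hsc
  have q2 : c * (1 - s) - t * (1 - s - d) = c - 2 * t * V + (1 - 2 * t) * η := by
    rw [hVη]; linear_combination -hsc
  have q3 : c * d = c * (1 - V - η) - t * V + (1 - t) * η := by
    rw [hd]; linear_combination -hsc
  have q4 : c * (1 - s) = c - (t * V - (1 - t) * η) := by linear_combination -hsc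
  rw [hX] at hx
  rw [hX, q1, q2, q3, q4, hsc] at Q
  have hγ : 0 ≤ 1 - t - c := by linarith
  have hcc : 0 ≤ c * (1 - c) - 2 * t * V := by
    have := mul_nonneg hh.le hγ
    have := mul_nonneg ht.le (sub_nonneg.2 hRw)
    nlinarith
  have j1 := mul_nonneg hx.le hcc
  have j2 := mul_nonneg hη0.le hcc
  have j3 := mul_nonneg hη0.le (mul_nonneg (show (0:ℝ) ≤ 1 - c by linarith)
    (show (0:ℝ) ≤ 2 * c - V by linarith))
  have j4 := mul_nonneg hγ (sq_nonneg η)
  linarith

end mode0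

end Pool.Agent.K4H60.Seven
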