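import Pool.Agent.K4H60.Seven.Norm

set_option autoImplicit false

open scoped Pointwise
open Set

namespace Pool.Agent.K4H60.Seven

/-- the seven point theorem for a norm given as a function -/
theorem seven_fun (V : Type) [AddCommGroup V] [Module ℝ V] (hV : Module.finrank ℝ V = 2)
    (N : V → ℝ) (h0 : ∀ x, 0 ≤ N x) (h1 : ∀ (c : ℝ) (x : V), N (c • x) = |c| * N x)
    (h2 : ∀ x y, N (x + y) ≤ N x + N y) (h3 : ∀ x, N x = 0 → x = 0)
    (p : Fin 7 → V) (hp : Function.Injective p) :
    ∃ i j k l : Fin 7, k ≠ l ∧ 2 * N (p k - p l) ≤ N (p i - p j) := by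
  letI : Norm V := ⟨N⟩
  have core : NormedSpace.Core ℝ V :=
    { norm_nonneg := h0
      norm_smul := h1
      norm_triangle := h2
      norm_eq_zero_iff := fun x => ⟨h3 x, fun hx => by
        show N x = 0
        rw [hx]
        have := h1 0 0
        simpa using this⟩ }
  letI : NormedAddCommGroup V := NormedAddCommGroup.ofCore core
  letI : NormedSpace ℝ V := NormedSpace.ofCore core
  obtain ⟨i, j, k, l, hkl, h⟩ := seven V hV p hp
  rw [dist_eq_norm, dist_eq_norm] at h
  exact ⟨i, j, k, l, hkl, h⟩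

theorem translates (C : Set (EuclideanSpace ℝ (Fin 2))) (hC : Convex ℝ C) (hCc : IsCompact C)
    (hCi : (interior C).Nonempty) (t : ℝ) (ht : 1 / 3 < t)
    (v : Fin 7 → EuclideanSpace ℝ (Fin 2)) (hv : ∀ i, v i +ᵥ (t • C) ⊆ C)
    (hd : Pairwise (fun i j => Disjoint (interior (v i +ᵥ (t • C))) (interior (v j +ᵥ (t • C))))) :
    False := by
  obtain ⟨o, ho⟩ := hCi
  have hoC : o ∈ C := interior_subset ho
  have ht0 : 0 < t := by linarith
  -- the difference body
  obtain ⟨K, hK⟩ : ∃ K, K = C - C := ⟨_, rfl⟩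
  have hKc : Convex ℝ K := by rw [hK]; exact hC.sub hC
  have hKcomp : IsCompact K := by rw [hK, sub_eq_add_neg]; exact hCc.add hCc.neg
  have hKs : ∀ x ∈ K, -x ∈ K := by
    intro x hx
    rw [hK] at hx ⊢
    obtain ⟨a, ha, b, hb, rfl⟩ := hx
    exact ⟨b, hb, a, ha, by simp⟩
  have hK0 : K ∈ nhds (0 : EuclideanSpace ℝ (Fin 2)) := by
    have h1 : (fun x => x - o) '' (interior C) ⊆ K := by
      rintro _ ⟨x, hx, rfl⟩
      rw [hK]
      exact ⟨x, interior_subset hx, o, hoC, rfl⟩
    have h2 : IsOpen ((fun x => x - o) '' (interior C)) := by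
      have := (Homeomorph.subRight o).isOpenMap (interior C) isOpen_interior
      exact this
    exact Filter.mem_of_superset (h2.mem_nhds ⟨o, ho, by simp⟩) h1
  have hKa : Absorbent ℝ K := absorbent_nhds_zero hK0
  have hKb : Bornology.IsVonNBounded ℝ K := (NormedSpace.isVonNBounded_iff ℝ).2 hKcomp.isBounded
  -- `v i ∈ (1 - t) C`
  have hmem : ∀ i, v i ∈ (1 - t) • C := by
    intro i
    by_contra hcon
    have hcl : IsClosed ((1 - t) • C) := (hCc.smul (1 - t)).isClosed
    obtain ⟨f, r, hf1, hf2⟩ := geometric_hahn_banach_closed_point (hC.smul (1 - t)) hcl hcon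
    obtain ⟨c, hc, hmax⟩ := hCc.exists_isMaxOn ⟨o, hoC⟩ f.continuous.continuousOn
    have h1 : v i + t • c ∈ C := hv i ⟨t • c, ⟨c, hc, rfl⟩, rfl⟩
    have h2 : f (v i + t • c) ≤ f c := hmax h1
    have h3 := hf1 ((1 - t) • c) ⟨c, hc, rfl⟩
    rw [map_add, map_smul, smul_eq_mul] at h2
    rw [map_smul, smul_eq_mul] at h3
    linarith
  -- upper bound for the gauge
  have hup : ∀ i j, gauge K (v i - v j) ≤ |1 - t| := by
    intro i j
    obtain ⟨a, ha, hai⟩ := hmem i
    obtain ⟨b, hb, hbj⟩ := hmem j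
    have hai' : (1 - t) • a = v i := hai
    have hbj' : (1 - t) • b = v j := hbj
    have hab : a - b ∈ K := by rw [hK]; exact ⟨a, ha, b, hb, rfl⟩
    have e : v i - v j = (1 - t) • (a - b) := by rw [← hai', ← hbj', smul_sub]
    apply gauge_le_of_mem (abs_nonneg _)
    rw [e]
    rcases abs_choice (1 - t) with h | h
    · rw [h]; exact ⟨a - b, hab, rfl⟩
    · rw [h]; exact ⟨-(a - b), hKs _ hab, by
        show (-(1 - t)) • (-(a - b)) = (1 - t) • (a - b)
        rw [smul_neg, neg_smul, neg_neg]⟩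
  -- lower bound for the gauge
  have hlow : ∀ i j, i ≠ j → t ≤ gauge K (v i - v j) := by
    intro i j hij
    by_contra hcon
    push Not at hcon
    obtain ⟨r, hr0, hrt, hr⟩ := exists_lt_of_gauge_lt hKa hcon
    obtain ⟨w, hw, hwe⟩ := hr
    rw [hK] at hw
    obtain ⟨c1, hc1, c2, hc2, rfl⟩ := hw
    have hwe' : r • (c1 - c2) = v i - v j := hwe
    have hrt1 : r / t < 1 := (div_lt_one ht0).2 hrt
    have hrt0 : 0 ≤ r / t := by positivity
    have hx : ((1 - r / t) • o + (r / t) • c2) ∈ interior C :=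
      hC.combo_interior_self_mem_interior ho hc2 (by linarith) hrt0 (by ring)
    have hy : ((1 - r / t) • o + (r / t) • c1) ∈ interior C :=
      hC.combo_interior_self_mem_interior ho hc1 (by linarith) hrt0 (by ring)
    have hint : ∀ (k : Fin 7) (x : EuclideanSpace ℝ (Fin 2)), x ∈ interior C →
        v k + t • x ∈ interior (v k +ᵥ (t • C)) := by
      intro k x hx
      rw [interior_vadd, interior_smul₀ ht0.ne']
      exact ⟨t • x, ⟨x, hx, rfl⟩, rfl⟩
    have h1 := hint i _ hx
    have h2 := hint j _ hy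
    have e : v i + t • ((1 - r / t) • o + (r / t) • c2) = v j + t • ((1 - r / t) • o + (r / t) • c1) := by
      have e1 : v i = v j + r • (c1 - c2) := by rw [hwe']; abel
      have e2 : t * (r / t) = r := by field_simp
      rw [e1, smul_add, smul_add, smul_smul t (r / t), smul_smul t (r / t), e2, smul_sub]
      abel
    rw [e] at h1
    exact (Set.disjoint_left.1 (hd hij) h1) h2
  have hinj : Function.Injective v := by
    intro i j hij
    by_contra hne
    have := hlow i j hne
    rw [hij, sub_self, gauge_zero] at this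
    linarith
  have hfin : Module.finrank ℝ (EuclideanSpace ℝ (Fin 2)) = 2 := by simp
  obtain ⟨i, j, k, l, hkl, h⟩ := seven_fun (EuclideanSpace ℝ (Fin 2)) hfin (gauge K)
    gauge_nonneg
    (fun c x => by
      rcases abs_choice c with h | h
      · have hc : 0 ≤ c := by rw [← h]; exact abs_nonneg c
        rw [h, gauge_smul_of_nonneg hc, smul_eq_mul]
      · have hc : 0 ≤ -c := by rw [← h]; exact abs_nonneg c
        rw [h, ← gauge_neg hKs, ← neg_smul, gauge_smul_of_nonneg hc, smul_eq_mul])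
    (fun x y => gauge_add_le hKc hKa x y)
    (fun x hx => by
      by_contra hne
      have := (gauge_pos hKa hKb).2 hne
      linarith) v hinj
  have h4 := hlow k l hkl
  have h5 := hup i j
  rcases abs_cases (1 - t) with ⟨h6, h7⟩ | ⟨h6, h7⟩ <;> linarith

end Pool.Agent.K4H60.Seven
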